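import Pool.Agent.K6.H5.WHA.Defs
import Pool.Agent.K6.H23.WA.MainT

/-!
Closed polygonal curves.
-/

set_option autoImplicit false

namespace Pool.Agent.K6.H5.WHA

open Finset
open Pool.Agent.K6.H23.WA

/-- the closed polygon with the same cost, width, height and area -/
theorem closed_of_family3 {m : ℕ} (t : Fin m → ℝ) (v : Fin m → ℝ × ℝ) (ht : ∀ i, 0 ≤ t i) :
    ∃ (m' : ℕ) (t' : Fin m' → ℝ) (v' : Fin m' → ℝ × ℝ), (∀ i, 0 ≤ t' i) ∧
      ∑ i, t' i = ∑ i, t i ∧
      (∀ i, ∃ j, |(v' i).1| = |(v j).1| ∧ |(v' i).2| = |(v j).2|) ∧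
      ∑ i, t' i * (v' i).1 = 0 ∧ ∑ i, t' i * (v' i).2 = 0 ∧
      (∀ g : ℝ × ℝ → ℝ, (∀ v, g (|v.1|, |v.2|) = g v) →
        ∑ i, t' i * g (v' i) = ∑ i, t i * g (v i)) ∧
      (∃ j k : ℕ, TX t v ≤ |∑ i ∈ univ.filter (fun i : Fin m' => j ≤ (i : ℕ) ∧ (i : ℕ) < k),
        2 * t' i * (v' i).1|) ∧
      (∃ j k : ℕ, TY t v ≤ |∑ i ∈ univ.filter (fun i : Fin m' => j ≤ (i : ℕ) ∧ (i : ℕ) < k),
        2 * t' i * (v' i).2|) ∧
      Mf t v ≤ 2 * ∑ j, ∑ i ∈ univ.filter (· < j),
        t' i * t' j * ((v' i).1 * (v' j).2 - (v' j).1 * (v' i).2) := by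
  obtain ⟨σ, hσ⟩ := exists_sorted v
  -- the edges in the first quadrant
  set s : Fin m → ℝ := fun i => t (σ i) / 4 with hs
  set p : Fin m → ℝ × ℝ := fun i => (|(v (σ i)).1|, |(v (σ i)).2|) with hp
  set q : Fin m → ℝ × ℝ := fun i => (|(v (σ i)).1|, -|(v (σ i)).2|) with hq
  set th : Fin (m + m) → ℝ := Fin.append (fun i => s i.rev) s with hth
  set vh : Fin (m + m) → ℝ × ℝ := Fin.append (fun i => q i.rev) p with hvh
  set vn : Fin (m + m) → ℝ × ℝ := fun i => (-(vh i).1, -(vh i).2) with hvn
  have hg : ∀ g : ℝ × ℝ → ℝ, (∀ v, g (|v.1|, |v.2|) = g v) →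
      ∑ i, Fin.append th th i * g (Fin.append vh vn i) = ∑ i, t i * g (v i) := by
    intro g hg
    have e1 : ∀ i, g (vn i) = g (vh i) := fun i => by
      rw [← hg (vn i), ← hg (vh i)]
      simp only [hvn, abs_neg]
    have e2 : ∀ i, g (p i) = g (v (σ i)) := fun i => by
      rw [hp]; exact hg _
    have e3 : ∀ i, g (q i) = g (v (σ i)) := fun i => by
      rw [← hg (q i), ← hg (v (σ i))]
      simp only [hq, abs_neg, abs_abs]
    rw [Fin.sum_univ_add]
    simp only [Fin.append_left, Fin.append_right, e1]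
    rw [Fin.sum_univ_add]
    simp only [hth, hvh, Fin.append_left, Fin.append_right, e2, e3]
    have e4 : ∑ i : Fin m, s i.rev * g (v (σ i.rev)) = ∑ i, s i * g (v (σ i)) :=
      Equiv.sum_comp Fin.revPerm fun i => s i * g (v (σ i))
    rw [e4, ← Equiv.sum_comp σ fun i => t i * g (v i)]
    simp only [hs, ← sum_add_distrib]
    exact sum_congr rfl fun i _ => by ring
  have hXs : TX t v = ∑ i, t (σ i) * |(v (σ i)).1| := (Equiv.sum_comp σ _).symm
  have hYs : TY t v = ∑ i, t (σ i) * |(v (σ i)).2| := (Equiv.sum_comp σ _).symm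
  refine ⟨(m + m) + (m + m), Fin.append th th, Fin.append vh vn, ?_, ?_, ?_, ?_, ?_, hg, ?_, ?_, ?_⟩
  · have h0 : ∀ i, 0 ≤ th i := by
      intro i
      refine Fin.addCases (fun i => ?_) (fun i => ?_) i
      · rw [hth, Fin.append_left]
        exact div_nonneg (ht _) (by norm_num)
      · rw [hth, Fin.append_right]
        exact div_nonneg (ht _) (by norm_num)
    intro i
    refine Fin.addCases (fun i => ?_) (fun i => ?_) i
    · rw [Fin.append_left]; exact h0 i
    · rw [Fin.append_right]; exact h0 i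
  · have := hg (fun _ => 1) (fun _ => rfl)
    simpa using this
  · have h0 : ∀ i, ∃ j, |(vh i).1| = |(v j).1| ∧ |(vh i).2| = |(v j).2| := by
      intro i
      refine Fin.addCases (fun i => ?_) (fun i => ?_) i
      · rw [hvh, Fin.append_left]
        exact ⟨σ i.rev, by simp [hq], by simp [hq]⟩
      · rw [hvh, Fin.append_right]
        exact ⟨σ i, by simp [hp], by simp [hp]⟩
    intro i
    refine Fin.addCases (fun i => ?_) (fun i => ?_) i
    · rw [Fin.append_left]; exact h0 i
    · rw [Fin.append_right]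
      obtain ⟨j, h1, h2⟩ := h0 i
      exact ⟨j, by simp only [hvn, abs_neg]; exact h1, by simp only [hvn, abs_neg]; exact h2⟩
  · rw [Fin.sum_univ_add]
    simp only [Fin.append_left, Fin.append_right, hvn, mul_neg, sum_neg_distrib]
    ring
  · rw [Fin.sum_univ_add]
    simp only [Fin.append_left, Fin.append_right, hvn, mul_neg, sum_neg_distrib]
    ring
  · refine ⟨0, m + m, ?_⟩
    refine le_trans (le_of_eq ?_) (le_abs_self _)
    rw [sum_filter, Fin.sum_univ_add]
    have e1 : ∀ i : Fin (m + m), (if 0 ≤ ((Fin.castAdd (m + m) i : Fin ((m + m) + (m + m))) : ℕ) ∧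
        ((Fin.castAdd (m + m) i : Fin ((m + m) + (m + m))) : ℕ) < m + m then
        2 * Fin.append th th (Fin.castAdd (m + m) i) * (Fin.append vh vn (Fin.castAdd (m + m) i)).1
        else 0) = 2 * th i * (vh i).1 := by
      intro i
      rw [if_pos ⟨Nat.zero_le _, by rw [Fin.val_castAdd]; exact i.2⟩, Fin.append_left,
        Fin.append_left]
    have e2 : ∀ i : Fin (m + m), (if 0 ≤ ((Fin.natAdd (m + m) i : Fin ((m + m) + (m + m))) : ℕ) ∧
        ((Fin.natAdd (m + m) i : Fin ((m + m) + (m + m))) : ℕ) < m + m then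
        2 * Fin.append th th (Fin.natAdd (m + m) i) * (Fin.append vh vn (Fin.natAdd (m + m) i)).1
        else 0) = 0 := by
      intro i
      rw [if_neg]
      rw [Fin.val_natAdd]
      omega
    rw [sum_congr rfl fun i _ => e1 i, sum_congr rfl fun i _ => e2 i, sum_const_zero, add_zero,
      Fin.sum_univ_add]
    simp only [hth, hvh, Fin.append_left, Fin.append_right]
    have e4 : ∑ i : Fin m, 2 * s i.rev * (q i.rev).1 = ∑ i, 2 * s i * (q i).1 :=
      Equiv.sum_comp Fin.revPerm fun i => 2 * s i * (q i).1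
    rw [e4, hXs, ← sum_add_distrib]
    refine sum_congr rfl fun i _ => ?_
    simp only [hs, hp, hq]
    ring
  · refine ⟨m, m + m + m, ?_⟩
    refine le_trans (le_of_eq ?_) (le_abs_self _)
    rw [sum_filter, Fin.sum_univ_add]
    have e1 : ∀ i : Fin (m + m), (if m ≤ ((Fin.castAdd (m + m) i : Fin ((m + m) + (m + m))) : ℕ) ∧
        ((Fin.castAdd (m + m) i : Fin ((m + m) + (m + m))) : ℕ) < m + m + m then
        2 * Fin.append th th (Fin.castAdd (m + m) i) * (Fin.append vh vn (Fin.castAdd (m + m) i)).2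
        else 0) = if m ≤ (i : ℕ) then 2 * th i * (vh i).2 else 0 := by
      intro i
      rw [Fin.val_castAdd, Fin.append_left, Fin.append_left]
      have := i.2
      by_cases hc : m ≤ (i : ℕ)
      · rw [if_pos ⟨hc, by omega⟩, if_pos hc]
      · rw [if_neg (fun h => hc h.1), if_neg hc]
    have e2 : ∀ i : Fin (m + m), (if m ≤ ((Fin.natAdd (m + m) i : Fin ((m + m) + (m + m))) : ℕ) ∧
        ((Fin.natAdd (m + m) i : Fin ((m + m) + (m + m))) : ℕ) < m + m + m then
        2 * Fin.append th th (Fin.natAdd (m + m) i) * (Fin.append vh vn (Fin.natAdd (m + m) i)).2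
        else 0) = if (i : ℕ) < m then 2 * th i * (vn i).2 else 0 := by
      intro i
      rw [Fin.val_natAdd, Fin.append_right, Fin.append_right]
      by_cases hc : (i : ℕ) < m
      · rw [if_pos ⟨by omega, by omega⟩, if_pos hc]
      · rw [if_neg (fun h => hc (by omega)), if_neg hc]
    rw [sum_congr rfl fun i _ => e1 i, sum_congr rfl fun i _ => e2 i, Fin.sum_univ_add,
      Fin.sum_univ_add]
    have e3 : ∀ i : Fin m, (if m ≤ ((Fin.castAdd m i : Fin (m + m)) : ℕ) then
        2 * th (Fin.castAdd m i) * (vh (Fin.castAdd m i)).2 else 0) = 0 := by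
      intro i
      rw [if_neg]
      rw [Fin.val_castAdd]
      have := i.2
      omega
    have e4 : ∀ i : Fin m, (if m ≤ ((Fin.natAdd m i : Fin (m + m)) : ℕ) then
        2 * th (Fin.natAdd m i) * (vh (Fin.natAdd m i)).2 else 0) = 2 * s i * (p i).2 := by
      intro i
      rw [if_pos (by rw [Fin.val_natAdd]; omega)]
      simp only [hth, hvh, Fin.append_right]
    have e5 : ∀ i : Fin m, (if ((Fin.castAdd m i : Fin (m + m)) : ℕ) < m then
        2 * th (Fin.castAdd m i) * (vn (Fin.castAdd m i)).2 else 0) =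
        2 * s i.rev * -(q i.rev).2 := by
      intro i
      rw [if_pos (by rw [Fin.val_castAdd]; exact i.2)]
      simp only [hth, hvn, hvh, Fin.append_left]
    have e6 : ∀ i : Fin m, (if ((Fin.natAdd m i : Fin (m + m)) : ℕ) < m then
        2 * th (Fin.natAdd m i) * (vn (Fin.natAdd m i)).2 else 0) = 0 := by
      intro i
      rw [if_neg]
      rw [Fin.val_natAdd]
      omega
    rw [sum_congr rfl fun i _ => e3 i, sum_congr rfl fun i _ => e4 i, sum_congr rfl fun i _ => e5 i,
      sum_congr rfl fun i _ => e6 i, sum_const_zero, zero_add, add_zero]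
    have e7 : ∑ i : Fin m, 2 * s i.rev * -(q i.rev).2 = ∑ i, 2 * s i * -(q i).2 :=
      Equiv.sum_comp Fin.revPerm fun i => 2 * s i * -(q i).2
    rw [e7, hYs, ← sum_add_distrib]
    refine sum_congr rfl fun i _ => ?_
    simp only [hs, hp, hq]
    ring
  · have h1 : xs (Fin.append th th) (Fin.append vh vn) = 2 * xs th vh := by
      rw [xs_append]
      have e1 : xs th vn = xs th vh := by
        simp only [xs, hvn]
        exact sum_congr rfl fun j _ => sum_congr rfl fun i _ => by ring
      have e2 : ∑ j, th j * (vn j).2 = -∑ j, th j * (vh j).2 := by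
        simp only [hvn, mul_neg, sum_neg_distrib]
      have e3 : ∑ j, th j * (vn j).1 = -∑ j, th j * (vh j).1 := by
        simp only [hvn, mul_neg, sum_neg_distrib]
      rw [e1, e2, e3]
      ring
    have h2 : xs th vh = 2 * xs s p + 2 * ((∑ i, s i * (p i).1) * (∑ j, s j * (p j).2)) := by
      rw [hth, hvh, xs_append]
      have e1 : xs (fun i => s i.rev) (fun i => q i.rev) = xs s p := by
        rw [xs_rev, xs, xs, ← sum_neg_distrib]
        refine sum_congr rfl fun j _ => ?_
        rw [← sum_neg_distrib]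
        exact sum_congr rfl fun i _ => by simp only [hp, hq]; ring
      have e2 : ∑ i : Fin m, s i.rev * (q i.rev).1 = ∑ i, s i * (p i).1 :=
        Equiv.sum_comp Fin.revPerm fun i => s i * (q i).1
      have e3 : ∑ i : Fin m, s i.rev * (q i.rev).2 = -∑ i, s i * (p i).2 := by
        rw [← sum_neg_distrib]
        rw [show ∑ i : Fin m, s i.rev * (q i.rev).2 = ∑ i, s i * (q i).2 from
          Equiv.sum_comp Fin.revPerm fun i => s i * (q i).2]
        exact sum_congr rfl fun i _ => by simp only [hp, hq]; ring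
      rw [e1, e2, e3]
      ring
    have hσ' : ∀ i j, i ≤ j → (p j).1 * (p i).2 ≤ (p i).1 * (p j).2 := hσ
    have h3 : xs s p + (∑ i, s i * (p i).1) * (∑ j, s j * (p j).2) =
        ∑ i, ∑ j, s i * s j * max ((p i).1 * (p j).2) ((p j).1 * (p i).2) := by
      rw [xs_eq, sum_mul_sum]
      have e1 : ∀ i j, s i * (p i).1 * (s j * (p j).2) =
          s i * s j * ((p i).1 * (p j).2) := fun i j => by ring
      simp only [e1]
      -- symmetrise
      have e2 : ∑ j, ∑ i, (if i < j then s i * s j * ((p i).1 * (p j).2 - (p j).1 * (p i).2)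
          else 0) + ∑ i, ∑ j, s i * s j * ((p i).1 * (p j).2) =
          ∑ i, ∑ j, ((if i < j then s i * s j * ((p i).1 * (p j).2) else 0) -
            (if j < i then s i * s j * ((p i).1 * (p j).2) else 0) +
            s i * s j * ((p i).1 * (p j).2)) := by
        simp only [sum_add_distrib, sum_sub_distrib]
        congr 1
        have e3 : ∀ i j : Fin m,
            (if i < j then s i * s j * ((p i).1 * (p j).2 - (p j).1 * (p i).2) else 0) =
            (if i < j then s i * s j * ((p i).1 * (p j).2) else 0) -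
            (if i < j then s i * s j * ((p j).1 * (p i).2) else 0) := fun i j => by
          split_ifs <;> ring
        simp only [e3, sum_sub_distrib]
        congr 1
        · rw [sum_comm]
        · refine sum_congr rfl fun i _ => sum_congr rfl fun j _ => ?_
          split_ifs <;> ring
      rw [e2]
      -- the same for the maximum
      have e4 : ∑ i, ∑ j, s i * s j * max ((p i).1 * (p j).2) ((p j).1 * (p i).2) =
          ∑ i, ∑ j, ((if i < j then s i * s j * ((p i).1 * (p j).2) else 0) +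
            (if j < i then s i * s j * ((p j).1 * (p i).2) else 0) +
            (if i = j then s i * s j * ((p i).1 * (p j).2) else 0)) := by
        refine sum_congr rfl fun i _ => sum_congr rfl fun j _ => ?_
        rcases lt_trichotomy i j with h | h | h
        · rw [max_eq_left (hσ' i j h.le)]
          simp [h, h.ne, h.le.not_gt]
        · subst h
          simp
        · rw [max_eq_right (hσ' j i h.le)]
          simp [h, h.ne', h.le.not_gt]
      have e5 : ∑ i, ∑ j, ((if i < j then s i * s j * ((p i).1 * (p j).2) else 0) -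
            (if j < i then s i * s j * ((p i).1 * (p j).2) else 0) +
            s i * s j * ((p i).1 * (p j).2)) =
          ∑ i, ∑ j, ((if i < j then s i * s j * ((p i).1 * (p j).2) else 0) +
            (if i < j then s i * s j * ((p i).1 * (p j).2) else 0) +
            (if i = j then s i * s j * ((p i).1 * (p j).2) else 0)) := by
        refine sum_congr rfl fun i _ => sum_congr rfl fun j _ => ?_
        rcases lt_trichotomy i j with h | h | h
        · simp [h, h.ne, h.le.not_gt]
        · subst h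
          simp
        · simp [h, h.ne', h.le.not_gt]
      rw [e4, e5]
      simp only [sum_add_distrib]
      congr 1
      congr 1
      rw [sum_comm]
      refine sum_congr rfl fun i _ => sum_congr rfl fun j _ => ?_
      split_ifs <;> ring
    have h4 : Mf t v = 8 * ∑ i, ∑ j, s i * s j * max ((p i).1 * (p j).2) ((p j).1 * (p i).2) := by
      rw [Mf, ← Equiv.sum_comp σ]
      have e1 : ∀ i, ∑ j, t (σ i) * t j * max (|(v (σ i)).1| * |(v j).2|)
          (|(v j).1| * |(v (σ i)).2|) = ∑ j, t (σ i) * t (σ j) *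
          max (|(v (σ i)).1| * |(v (σ j)).2|) (|(v (σ j)).1| * |(v (σ i)).2|) := fun i =>
        (Equiv.sum_comp σ _).symm
      simp only [e1, mul_sum]
      refine sum_congr rfl fun i _ => sum_congr rfl fun j _ => ?_
      simp only [hs, hp]
      ring
    show Mf t v ≤ 2 * xs (Fin.append th th) (Fin.append vh vn)
    rw [h1, h2, h4, ← h3]
    apply le_of_eq
    ring

/-- the costs of the closed polygonal curves with the edges `2 t_i v_i` with width, height and signed
area at least `x`, `y` and `a` -/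
def ccosts3 (I : ℝ × ℝ → ℝ) (x y a : ℝ) : Set ℝ :=
  {c | ∃ (m : ℕ) (t : Fin m → ℝ) (v : Fin m → ℝ × ℝ), (∀ i, 0 ≤ t i) ∧ ∑ i, t i = 1 ∧
    (∀ i, |(v i).1| + |(v i).2| ≤ 1) ∧ ∑ i, t i * (v i).1 = 0 ∧ ∑ i, t i * (v i).2 = 0 ∧
    (∃ j k : ℕ, x ≤ |∑ i ∈ univ.filter (fun i : Fin m => j ≤ (i : ℕ) ∧ (i : ℕ) < k),
      2 * t i * (v i).1|) ∧
    (∃ j k : ℕ, y ≤ |∑ i ∈ univ.filter (fun i : Fin m => j ≤ (i : ℕ) ∧ (i : ℕ) < k),
      2 * t i * (v i).2|) ∧
    a ≤ 2 * ∑ j, ∑ i ∈ univ.filter (· < j),
      t i * t j * ((v i).1 * (v j).2 - (v j).1 * (v i).2) ∧ c = ∑ i, t i * I (v i)}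

/-- twice a partial sum of a sequence with sum zero -/
theorem two_part {m : ℕ} {g : Fin m → ℝ} (h0 : ∑ i, g i = 0) (p : Fin m → Prop)
    [DecidablePred p] : |∑ i ∈ univ.filter p, 2 * g i| ≤ ∑ i, |g i| := by
  have h1 := sum_filter_add_sum_filter_not univ p g
  rw [h0] at h1
  have h2 : ∑ i ∈ univ.filter p, 2 * g i = ∑ i ∈ univ.filter p, g i -
      ∑ i ∈ univ.filter (fun i => ¬ p i), g i := by
    rw [← mul_sum]
    linarith
  rw [h2]
  have h3 := sum_filter_add_sum_filter_not univ p (fun i => |g i|)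
  have h4 := abs_sub (∑ i ∈ univ.filter p, g i) (∑ i ∈ univ.filter (fun i => ¬ p i), g i)
  have h5 := abs_sum_le_sum_abs g (univ.filter p)
  have h6 := abs_sum_le_sum_abs g (univ.filter (fun i => ¬ p i))
  linarith

theorem ccosts3_eq {I : ℝ × ℝ → ℝ} {κ : ℝ} (hI : RateFn I κ) (x y a : ℝ) :
    ccosts3 I x y a = costs3 I x y a := by
  apply Set.Subset.antisymm
  · rintro c ⟨m, t, v, ht, h1, hv, hx, hy, ⟨j1, k1, hjk1⟩, ⟨j2, k2, hjk2⟩, ha, hc⟩
    have hmem := ccosts_eq hI a
    have e1 : TX t v = ∑ i, |t i * (v i).1| := by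
      unfold TX
      exact sum_congr rfl fun i _ => by rw [abs_mul, abs_of_nonneg (ht i)]
    have e2 : TY t v = ∑ i, |t i * (v i).2| := by
      unfold TY
      exact sum_congr rfl fun i _ => by rw [abs_mul, abs_of_nonneg (ht i)]
    refine ⟨m, t, v, ht, h1, hv, ?_, ?_, ?_, hc⟩
    · rw [e1]
      refine hjk1.trans ?_
      simp only [mul_assoc]
      exact two_part hx _
    · rw [e2]
      refine hjk2.trans ?_
      simp only [mul_assoc]
      exact two_part hy _
    · have h := closed_le (fun i => (t i * (v i).1, t i * (v i).2)) hx hy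
      simp only at h
      have e1 : ∑ j, ∑ i ∈ univ.filter (· < j), (t i * (v i).1 * (t j * (v j).2) -
          t j * (v j).1 * (t i * (v i).2)) = ∑ j, ∑ i ∈ univ.filter (· < j),
          t i * t j * ((v i).1 * (v j).2 - (v j).1 * (v i).2) := by
        refine Finset.sum_congr rfl fun j _ => Finset.sum_congr rfl fun i _ => ?_
        ring
      have e2 : ∑ i, ∑ j, max (|t i * (v i).1| * |t j * (v j).2|)
          (|t j * (v j).1| * |t i * (v i).2|) =
          ∑ i, ∑ j, t i * t j * max (|(v i).1| * |(v j).2|) (|(v j).1| * |(v i).2|) := by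
        refine Finset.sum_congr rfl fun i _ => Finset.sum_congr rfl fun j _ => ?_
        rw [mul_max_of_nonneg _ _ (mul_nonneg (ht i) (ht j))]
        rw [abs_mul, abs_mul, abs_mul, abs_mul, abs_of_nonneg (ht i), abs_of_nonneg (ht j)]
        congr 1 <;> ring
      rw [e1, e2] at h
      unfold Mf
      linarith
  · rintro c ⟨m, t, v, ht, h1, hv, hx, hy, ha, hc⟩
    obtain ⟨m', t', v', ht', h1', hv', hx', hy', hg, ⟨j1, k1, hjk1⟩, ⟨j2, k2, hjk2⟩, hM⟩ :=
      closed_of_family3 t v ht
    refine ⟨m', t', v', ht', by rw [h1', h1], ?_, hx', hy', ⟨j1, k1, hx.trans hjk1⟩,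
      ⟨j2, k2, hy.trans hjk2⟩, ha.trans hM, ?_⟩
    · intro i
      obtain ⟨j, e1, e2⟩ := hv' i
      rw [e1, e2]
      exact hv j
    · have h2 := hg (fun v => I (|v.1|, |v.2|)) (fun v => by simp only [abs_abs])
      have h3 : ∑ i, t' i * I (v' i) = ∑ i, t' i * I (|(v' i).1|, |(v' i).2|) := by
        refine Finset.sum_congr rfl fun i _ => ?_
        obtain ⟨j, e1, e2⟩ := hv' i
        rw [hI.abs (v' i) (by rw [e1, e2]; exact hv j)]
      have h4 : ∑ i, t i * I (v i) = ∑ i, t i * I (|(v i).1|, |(v i).2|) := by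
        refine Finset.sum_congr rfl fun i _ => ?_
        rw [hI.abs (v i) (hv i)]
      rw [hc, h4, h3]
      exact h2.symm

end Pool.Agent.K6.H5.WHA
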