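import Pool.Agent.K6.H5.WHA.Main
import Pool.Agent.K6.H5.WHA.Closed

/-!
The box of a polygon; polygons exist only for feasible triples.
-/

set_option autoImplicit false

namespace Pool.Agent.K6.H5.WHA

open Pool.Agent.TH795.EP Pool.Agent.TH795.EP2 Pool.Agent.TH795.SE2 Pool.Agent.TH262.SawL H981 Finset
open Pool.Agent.Y981.L2 (Rate ln Wd width swp)
open Pool.Agent.K6.H5.JW (ps Ht)
open Pool.Agent.K6.H23.WA
open Filter Topology

theorem box_le {n : ℕ} (hn : 1 ≤ n) {f : ZMod (2 * n) → ℤ × ℤ} (hf : IsLoop (2 * n) f) :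
    width (2 * n) f + height (2 * n) f ≤ n := by
  have : NeZero (2 * n) := ⟨by omega⟩
  have h1 := Nat.sSup_mem (s := {w : ℕ | ∃ i j, w = ((f i).1 - (f j).1).natAbs})
    ⟨_, 0, 0, rfl⟩ (Pool.Agent.Y981.L2.width_set hn hf)
  have h2 := Nat.sSup_mem (s := {w : ℕ | ∃ i j, w = ((swp f i).1 - (swp f j).1).natAbs})
    ⟨_, 0, 0, rfl⟩ (Pool.Agent.Y981.L2.width_set hn (Pool.Agent.Y981.L2.swp_loop hf))
  obtain ⟨i, j, h1⟩ := h1
  obtain ⟨i', j', h2⟩ := h2
  have e1 : width (2 * n) f = ((f i).1 - (f j).1).natAbs := h1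
  have e2 : height (2 * n) f = ((f i').2 - (f j').2).natAbs := h2
  have hcast : ∀ p : ZMod (2 * n), ((p.val : ℕ) : ZMod (2 * n)) = p := fun p =>
    ZMod.natCast_zmod_val p
  have hp0 : ((2 * n : ℕ) : ZMod (2 * n)) = ((0 : ℕ) : ZMod (2 * n)) := by
    rw [ZMod.natCast_self, Nat.cast_zero]
  have g1 := closed_var (fun k : ℕ => (f (k : ZMod (2 * n))).1) (L := 2 * n) (by rw [hp0])
    (ZMod.val_lt j).le (ZMod.val_lt i).le
  have g2 := closed_var (fun k : ℕ => (f (k : ZMod (2 * n))).2) (L := 2 * n) (by rw [hp0])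
    (ZMod.val_lt j').le (ZMod.val_lt i').le
  simp only [hcast] at g1 g2
  have g3 : ∑ k ∈ range (2 * n), (|(f ((k + 1 : ℕ) : ZMod (2 * n))).1 - (f (k : ZMod (2 * n))).1| +
      |(f ((k + 1 : ℕ) : ZMod (2 * n))).2 - (f (k : ZMod (2 * n))).2|) = 2 * n := by
    rw [sum_congr rfl fun k _ => by
      have := hf.2.2 (k : ZMod (2 * n))
      push_cast
      exact this]
    simp
  rw [sum_add_distrib] at g3
  rw [e1, e2]
  have q1 : ((((f i).1 - (f j).1).natAbs : ℕ) : ℤ) = |(f i).1 - (f j).1| := Int.natCast_natAbs _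
  have q2 : ((((f i').2 - (f j').2).natAbs : ℕ) : ℤ) = |(f i').2 - (f j').2| := Int.natCast_natAbs _
  omega

theorem feas_of_pos {n : ℕ} (hn : 1 ≤ n) {x y r : ℝ} (h : 0 < pr3 n x y r) :
    Feas (x / n) (y / n) (r / n ^ 2) := by
  have hn0 : (0 : ℝ) < n := by exact_mod_cast hn
  have hne : {f : ZMod (2 * n) → ℤ × ℤ | IsLoop (2 * n) f ∧ x ≤ width (2 * n) f ∧
      y ≤ height (2 * n) f ∧ r ≤ Pool.Agent.Y981.L2.area (2 * n) f}.Nonempty := by
    by_contra hcon
    rw [Set.not_nonempty_iff_eq_empty] at hcon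
    unfold pr3 at h
    rw [hcon, Set.ncard_empty] at h
    simp at h
  obtain ⟨f, hf, h1, h2, h3⟩ := hne
  have h4 := box_le hn hf
  have h5 := Pool.Agent.Y981.L2.area_le_wh hn hf
  refine ⟨(width (2 * n) f : ℝ) / n, (height (2 * n) f : ℝ) / n, by positivity, by positivity,
    by gcongr, by gcongr, ?_, ?_⟩
  · rw [← add_div, div_le_one hn0]
    exact_mod_cast h4
  · have h6 : (Pool.Agent.Y981.L2.area (2 * n) f : ℝ) ≤ (width (2 * n) f : ℝ) * height (2 * n) f := by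
      exact_mod_cast h5
    rw [div_mul_div_comm, ← sq]
    gcongr
    exact h3.trans h6

/-- the conditional law -/
theorem cond_tendsto {x y a x' y' a' : ℝ} (ha : 0 ≤ a) (hs : SFeas x y a) (hx : x' ≤ x)
    (hy : y' ≤ y) (ha' : a' ≤ a) (ha0 : 0 ≤ a') :
    Tendsto (fun n : ℕ => -Real.log (pr3 n (x * n) (y * n) (a * (n : ℝ) ^ 2) /
      pr3 n (x' * n) (y' * n) (a' * (n : ℝ) ^ 2)) / (2 * n)) atTop
      (𝓝 (J3 Rate x y a - J3 Rate x' y' a')) := by
  have hs' : SFeas x' y' a' := by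
    obtain ⟨X, Y, h1, h2, h3, h4, h5, h6⟩ := hs
    exact ⟨X, Y, h1, h2, by linarith, by linarith, h5, by linarith⟩
  have hpos : ∀ {x y a : ℝ}, 0 ≤ a → SFeas x y a →
      ∀ᶠ n : ℕ in atTop, 0 < pr3 n (x * n) (y * n) (a * (n : ℝ) ^ 2) := by
    intro x y a ha hs
    obtain ⟨K, C, hK, hC, h⟩ := pr3_unif
    obtain ⟨δ, hδ, hδ1, -⟩ := J3_cont rateFn hs (ε := 1) one_pos
    obtain ⟨M, hM⟩ := exists_nat_gt (C / δ + 1)
    have hM1 : 1 ≤ M := by
      have : (1 : ℝ) < M := by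
        have : 0 ≤ C / δ := by positivity
        linarith
      exact_mod_cast this.le
    have hM0 : (0 : ℝ) < M := by exact_mod_cast hM1
    have hCM : C / M ≤ δ := by
      rw [div_le_iff₀ hM0]
      have h2 : C / δ < M := by linarith
      rw [div_lt_iff₀ hδ] at h2
      linarith
    have hM2 : 1 ≤ M ^ 2 := Nat.one_le_pow _ _ hM1
    filter_upwards [eventually_ge_atTop (16 * M ^ 2)] with n hn
    have hnr : (0 : ℝ) < n := by exact_mod_cast (by omega : 0 < n)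
    obtain ⟨-, -, g2⟩ := h n (by omega) M hM1 hn (x * n) (y * n) (a * (n : ℝ) ^ 2) (by positivity)
    have e1 : a * (n : ℝ) ^ 2 / n ^ 2 = a := by field_simp
    have e2 : x * (n : ℝ) / n = x := by field_simp
    have e3 : y * (n : ℝ) / n = y := by field_simp
    rw [e1, e2, e3] at g2
    exact lt_of_lt_of_le (Real.exp_pos _) (g2 (hδ1.mono (by linarith) (by linarith) (by linarith)))
  have h := (pr3_tendsto ha hs).sub (pr3_tendsto ha0 hs')
  refine h.congr' ?_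
  filter_upwards [hpos ha hs, hpos ha0 hs'] with n h1 h2
  rw [Real.log_div h1.ne' h2.ne']
  ring

end Pool.Agent.K6.H5.WHA
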