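import Pool.Agent.K6.H23.WA.PieceD
import Pool.Agent.K6.H23.WA.PieceB
import Pool.Agent.K6.H23.WA.PieceH2

/-!
# The joint variational problem for width, height and area

`costs3 I x y a` : the costs of the families `(t_i, v_i)` with half horizontal variation at least
`x`, half vertical variation at least `y` and area functional at least `a`.
-/

set_option autoImplicit false

namespace Pool.Agent.K6.H5.WHA

open Finset
open Pool.Agent.K6.H23.WA (RateFn Mf)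

/-- half of the horizontal variation (in units of `n`) -/
noncomputable def TX {m : ℕ} (t : Fin m → ℝ) (v : Fin m → ℝ × ℝ) : ℝ := ∑ i, t i * |(v i).1|

/-- half of the vertical variation (in units of `n`) -/
noncomputable def TY {m : ℕ} (t : Fin m → ℝ) (v : Fin m → ℝ × ℝ) : ℝ := ∑ i, t i * |(v i).2|

/-- the costs of the families with width, height and area at least `x`, `y`, `a` -/
def costs3 (I : ℝ × ℝ → ℝ) (x y a : ℝ) : Set ℝ :=
  {c | ∃ (m : ℕ) (t : Fin m → ℝ) (v : Fin m → ℝ × ℝ), (∀ i, 0 ≤ t i) ∧ ∑ i, t i = 1 ∧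
    (∀ i, |(v i).1| + |(v i).2| ≤ 1) ∧ x ≤ TX t v ∧ y ≤ TY t v ∧ a ≤ Mf t v ∧
    c = ∑ i, t i * I (v i)}

/-- the joint rate function -/
noncomputable def J3 (I : ℝ × ℝ → ℝ) (x y a : ℝ) : ℝ := sInf (costs3 I x y a)

/-- the feasible triples: there is a rectangle with half perimeter at most `1`, sides at least `x`
and `y`, and area at least `a` -/
def Feas (x y a : ℝ) : Prop := ∃ X Y : ℝ, 0 ≤ X ∧ 0 ≤ Y ∧ x ≤ X ∧ y ≤ Y ∧ X + Y ≤ 1 ∧ a ≤ X * Y

/-- the interior of the feasible set -/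
def SFeas (x y a : ℝ) : Prop := ∃ X Y : ℝ, 0 ≤ X ∧ 0 ≤ Y ∧ x < X ∧ y < Y ∧ X + Y < 1 ∧ a < X * Y

theorem SFeas.feas {x y a : ℝ} (h : SFeas x y a) : Feas x y a := by
  obtain ⟨X, Y, h1, h2, h3, h4, h5, h6⟩ := h
  exact ⟨X, Y, h1, h2, h3.le, h4.le, h5.le, h6.le⟩

theorem TX_nonneg {m : ℕ} {t : Fin m → ℝ} {v : Fin m → ℝ × ℝ} (ht : ∀ i, 0 ≤ t i) : 0 ≤ TX t v :=
  sum_nonneg fun i _ => mul_nonneg (ht i) (abs_nonneg _)

theorem TY_nonneg {m : ℕ} {t : Fin m → ℝ} {v : Fin m → ℝ × ℝ} (ht : ∀ i, 0 ≤ t i) : 0 ≤ TY t v :=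
  sum_nonneg fun i _ => mul_nonneg (ht i) (abs_nonneg _)

theorem TXY_le {m : ℕ} {t : Fin m → ℝ} {v : Fin m → ℝ × ℝ} (ht : ∀ i, 0 ≤ t i)
    (ht1 : ∑ i, t i = 1) (hv : ∀ i, |(v i).1| + |(v i).2| ≤ 1) : TX t v + TY t v ≤ 1 := by
  unfold TX TY
  rw [← sum_add_distrib, ← ht1]
  refine sum_le_sum fun i _ => ?_
  have := mul_le_mul_of_nonneg_left (hv i) (ht i)
  linarith

theorem Mf_le_mul {m : ℕ} {t : Fin m → ℝ} {v : Fin m → ℝ × ℝ} (ht : ∀ i, 0 ≤ t i) :
    Mf t v ≤ TX t v * TY t v := Pool.Agent.K6.H23.WA.PieceD.Mf_le t v ht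

theorem Mf_nonneg {m : ℕ} {t : Fin m → ℝ} {v : Fin m → ℝ × ℝ} (ht : ∀ i, 0 ≤ t i) :
    0 ≤ Mf t v := Pool.Agent.K6.H23.WA.PieceD.Mf_nonneg t v ht

/-- the rectangle -/
theorem rect_spec {X Y : ℝ} (hX : 0 ≤ X) (hY : 0 ≤ Y) :
    TX ![X, Y] ![((1 : ℝ), (0 : ℝ)), (0, 1)] = X ∧ TY ![X, Y] ![((1 : ℝ), (0 : ℝ)), (0, 1)] = Y ∧
      Mf ![X, Y] ![((1 : ℝ), (0 : ℝ)), (0, 1)] = X * Y := by
  refine ⟨?_, ?_, ?_⟩
  · simp [TX, Fin.sum_univ_two]
  · simp [TY, Fin.sum_univ_two]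
  · simp only [Mf, Fin.sum_univ_two, Matrix.cons_val_zero, Matrix.cons_val_one]
    norm_num
    ring

theorem costs3_nonempty {I : ℝ × ℝ → ℝ} {x y a : ℝ} (h : Feas x y a) :
    (costs3 I x y a).Nonempty := by
  obtain ⟨X, Y, h1, h2, h3, h4, h5, h6⟩ := h
  have hY' : 0 ≤ 1 - X := by linarith
  obtain ⟨e1, e2, e3⟩ := rect_spec h1 hY'
  refine ⟨_, 2, ![X, 1 - X], ![((1 : ℝ), (0 : ℝ)), (0, 1)], ?_, ?_, ?_, ?_, ?_, ?_, rfl⟩
  · intro i
    fin_cases i
    · simpa using h1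
    · simpa using hY'
  · simp [Fin.sum_univ_two]
  · intro i
    fin_cases i <;> simp
  · rw [e1]; exact h3
  · rw [e2]; linarith
  · rw [e3]
    refine h6.trans ?_
    exact mul_le_mul_of_nonneg_left (by linarith) h1

theorem feas_of_nonempty {I : ℝ × ℝ → ℝ} {x y a : ℝ} (h : (costs3 I x y a).Nonempty) :
    Feas x y a := by
  obtain ⟨c, m, t, v, ht, ht1, hv, hx, hy, ha, -⟩ := h
  exact ⟨TX t v, TY t v, TX_nonneg ht, TY_nonneg ht, hx, hy, TXY_le ht ht1 hv,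
    ha.trans (Mf_le_mul ht)⟩

theorem costs3_bdd {I : ℝ × ℝ → ℝ} {κ : ℝ} (hI : RateFn I κ) (x y a : ℝ) :
    BddBelow (costs3 I x y a) := by
  refine ⟨0, ?_⟩
  rintro c ⟨m, t, v, ht, -, hv, -, -, -, rfl⟩
  exact sum_nonneg fun i _ => mul_nonneg (ht i) (hI.nonneg _ (hv i))

theorem costs3_anti {I : ℝ × ℝ → ℝ} {x y a x' y' a' : ℝ} (hx : x ≤ x') (hy : y ≤ y')
    (ha : a ≤ a') : costs3 I x' y' a' ⊆ costs3 I x y a := by
  rintro c ⟨m, t, v, ht, ht1, hv, h1, h2, h3, hc⟩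
  exact ⟨m, t, v, ht, ht1, hv, hx.trans h1, hy.trans h2, ha.trans h3, hc⟩

theorem J3_mono {I : ℝ × ℝ → ℝ} {κ : ℝ} (hI : RateFn I κ) {x y a x' y' a' : ℝ} (hx : x ≤ x')
    (hy : y ≤ y') (ha : a ≤ a') (hf : Feas x' y' a') : J3 I x y a ≤ J3 I x' y' a' :=
  csInf_le_csInf (costs3_bdd hI x y a) (costs3_nonempty hf) (costs3_anti hx hy ha)

theorem Feas.mono {x y a x' y' a' : ℝ} (hf : Feas x' y' a') (hx : x ≤ x') (hy : y ≤ y')
    (ha : a ≤ a') : Feas x y a := by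
  obtain ⟨X, Y, h1, h2, h3, h4, h5, h6⟩ := hf
  exact ⟨X, Y, h1, h2, hx.trans h3, hy.trans h4, h5, ha.trans h6⟩

theorem J3_le {I : ℝ × ℝ → ℝ} {κ : ℝ} (hI : RateFn I κ) {x y a : ℝ} {m : ℕ} {t : Fin m → ℝ}
    {v : Fin m → ℝ × ℝ} (ht : ∀ i, 0 ≤ t i) (ht1 : ∑ i, t i = 1)
    (hv : ∀ i, |(v i).1| + |(v i).2| ≤ 1) (hx : x ≤ TX t v) (hy : y ≤ TY t v) (ha : a ≤ Mf t v) :
    J3 I x y a ≤ ∑ i, t i * I (v i) :=
  csInf_le (costs3_bdd hI x y a) ⟨m, t, v, ht, ht1, hv, hx, hy, ha, rfl⟩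

theorem exists_family {I : ℝ × ℝ → ℝ} {x y a : ℝ} (hf : Feas x y a) {ε : ℝ} (hε : 0 < ε) :
    ∃ (m : ℕ) (t : Fin m → ℝ) (v : Fin m → ℝ × ℝ), (∀ i, 0 ≤ t i) ∧ ∑ i, t i = 1 ∧
    (∀ i, |(v i).1| + |(v i).2| ≤ 1) ∧ x ≤ TX t v ∧ y ≤ TY t v ∧ a ≤ Mf t v ∧
    ∑ i, t i * I (v i) ≤ J3 I x y a + ε := by
  obtain ⟨c, ⟨m, t, v, ht, ht1, hv, h1, h2, h3, hc⟩, hlt⟩ :=
    exists_lt_of_csInf_lt (costs3_nonempty (I := I) hf)
      (show sInf (costs3 I x y a) < J3 I x y a + ε by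
        change J3 I x y a < _
        linarith)
  exact ⟨m, t, v, ht, ht1, hv, h1, h2, h3, by rw [← hc]; exact hlt.le⟩

/-! ### mixtures -/

/-- the bilinear form of the area -/
noncomputable def M12 {m m' : ℕ} (t : Fin m → ℝ) (v : Fin m → ℝ × ℝ) (t' : Fin m' → ℝ)
    (v' : Fin m' → ℝ × ℝ) : ℝ :=
  (1 / 2) * ∑ i, ∑ j, t i * t' j * max (|(v i).1| * |(v' j).2|) (|(v' j).1| * |(v i).2|)

theorem Mf_append {m m' : ℕ} (t : Fin m → ℝ) (v : Fin m → ℝ × ℝ) (t' : Fin m' → ℝ)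
    (v' : Fin m' → ℝ × ℝ) : Mf (Fin.append t t') (Fin.append v v') =
      Mf t v + 2 * M12 t v t' v' + Mf t' v' := by
  unfold Mf M12
  rw [Fin.sum_univ_add]
  simp only [Fin.append_left, Fin.append_right, Fin.sum_univ_add, sum_add_distrib]
  have e : ∑ i : Fin m', ∑ j : Fin m, t' i * t j * max (|(v' i).1| * |(v j).2|)
      (|(v j).1| * |(v' i).2|) = ∑ i : Fin m, ∑ j : Fin m', t i * t' j *
        max (|(v i).1| * |(v' j).2|) (|(v' j).1| * |(v i).2|) := by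
    rw [sum_comm]
    refine sum_congr rfl fun i _ => sum_congr rfl fun j _ => ?_
    rw [max_comm]
    ring
  rw [e]
  ring

theorem Mf_smul {m : ℕ} (s : ℝ) (t : Fin m → ℝ) (v : Fin m → ℝ × ℝ) :
    Mf (fun i => s * t i) v = s ^ 2 * Mf t v := by
  unfold Mf
  rw [mul_left_comm]
  congr 1
  rw [mul_sum]
  refine sum_congr rfl fun i _ => ?_
  rw [mul_sum]
  refine sum_congr rfl fun j _ => ?_
  ring

theorem M12_smul {m m' : ℕ} (s s' : ℝ) (t : Fin m → ℝ) (v : Fin m → ℝ × ℝ) (t' : Fin m' → ℝ)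
    (v' : Fin m' → ℝ × ℝ) : M12 (fun i => s * t i) v (fun j => s' * t' j) v' =
      s * s' * M12 t v t' v' := by
  unfold M12
  rw [mul_left_comm]
  congr 1
  rw [mul_sum]
  refine sum_congr rfl fun i _ => ?_
  rw [mul_sum]
  refine sum_congr rfl fun j _ => ?_
  ring

/-- Minkowski's inequality in the form of the positive semidefiniteness of the minimum:
for all `λ`, `M(t - λ t') ≤ X(t - λ t') Y(t - λ t')` -/
theorem lorentz {m m' : ℕ} (t : Fin m → ℝ) (v : Fin m → ℝ × ℝ) (t' : Fin m' → ℝ)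
    (v' : Fin m' → ℝ × ℝ) (lam : ℝ) :
    Mf t v - 2 * lam * M12 t v t' v' + lam ^ 2 * Mf t' v' ≤
      (TX t v - lam * TX t' v') * (TY t v - lam * TY t' v') := by
  have h := Pool.Agent.K6.H23.WA.psd_min_mul (univ : Finset (Fin (m + m')))
    (fun i => |(Fin.append v v' i).1|) (fun i => |(Fin.append v v' i).2|)
    (Fin.append t (fun j => -lam * t' j)) (fun i _ => abs_nonneg _) (fun i _ => abs_nonneg _)
  have e1 : Mf (Fin.append t (fun j => -lam * t' j)) (Fin.append v v') =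
      Mf t v - 2 * lam * M12 t v t' v' + lam ^ 2 * Mf t' v' := by
    rw [Mf_append, Mf_smul]
    have := M12_smul 1 (-lam) t v t' v'
    simp only [one_mul] at this
    rw [this]
    ring
  have e2 : ∀ i j, min (|(Fin.append v v' i).1| * |(Fin.append v v' j).2|)
      (|(Fin.append v v' j).1| * |(Fin.append v v' i).2|) =
      |(Fin.append v v' i).1| * |(Fin.append v v' j).2| +
      |(Fin.append v v' j).1| * |(Fin.append v v' i).2| -
      max (|(Fin.append v v' i).1| * |(Fin.append v v' j).2|)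
      (|(Fin.append v v' j).1| * |(Fin.append v v' i).2|) := by
    intro i j
    have := min_add_max (|(Fin.append v v' i).1| * |(Fin.append v v' j).2|)
      (|(Fin.append v v' j).1| * |(Fin.append v v' i).2|)
    linarith
  have e3 : ∑ i, ∑ j, Fin.append t (fun j => -lam * t' j) i * Fin.append t (fun j => -lam * t' j) j *
      min (|(Fin.append v v' i).1| * |(Fin.append v v' j).2|)
      (|(Fin.append v v' j).1| * |(Fin.append v v' i).2|) =
      2 * ((∑ i, Fin.append t (fun j => -lam * t' j) i * |(Fin.append v v' i).1|) *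
        (∑ i, Fin.append t (fun j => -lam * t' j) i * |(Fin.append v v' i).2|)) -
        2 * Mf (Fin.append t (fun j => -lam * t' j)) (Fin.append v v') := by
    unfold Mf
    rw [sum_mul_sum]
    have e4 : ∑ i, ∑ j, Fin.append t (fun j => -lam * t' j) i * |(Fin.append v v' i).1| *
        (Fin.append t (fun j => -lam * t' j) j * |(Fin.append v v' j).2|) =
        ∑ i, ∑ j, Fin.append t (fun j => -lam * t' j) j * |(Fin.append v v' j).1| *
        (Fin.append t (fun j => -lam * t' j) i * |(Fin.append v v' i).2|) := sum_comm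
    rw [two_mul (∑ i, ∑ j, Fin.append t (fun j => -lam * t' j) i * |(Fin.append v v' i).1| *
        (Fin.append t (fun j => -lam * t' j) j * |(Fin.append v v' j).2|))]
    nth_rewrite 2 [e4]
    rw [← mul_assoc (2 : ℝ), show (2 : ℝ) * (1 / 2) = 1 by norm_num, one_mul, ← sum_add_distrib,
      ← sum_sub_distrib]
    refine sum_congr rfl fun i _ => ?_
    rw [← sum_add_distrib, ← sum_sub_distrib]
    refine sum_congr rfl fun j _ => ?_
    rw [e2]
    ring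
  rw [e3, e1] at h
  have e5 : ∑ i, Fin.append t (fun j => -lam * t' j) i * |(Fin.append v v' i).1| =
      TX t v - lam * TX t' v' := by
    rw [Fin.sum_univ_add]
    simp only [Fin.append_left, Fin.append_right]
    unfold TX
    rw [mul_sum, sub_eq_add_neg, ← sum_neg_distrib]
    congr 1
    exact sum_congr rfl fun i _ => by ring
  have e6 : ∑ i, Fin.append t (fun j => -lam * t' j) i * |(Fin.append v v' i).2| =
      TY t v - lam * TY t' v' := by
    rw [Fin.sum_univ_add]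
    simp only [Fin.append_left, Fin.append_right]
    unfold TY
    rw [mul_sum, sub_eq_add_neg, ← sum_neg_distrib]
    congr 1
    exact sum_congr rfl fun i _ => by ring
  rw [e5, e6] at h
  linarith

/-- Minkowski's inequality -/
theorem minkowski {m m' : ℕ} {t : Fin m → ℝ} {v : Fin m → ℝ × ℝ} {t' : Fin m' → ℝ}
    {v' : Fin m' → ℝ × ℝ} (ht : ∀ i, 0 ≤ t i) (ht' : ∀ i, 0 ≤ t' i) :
    √(Mf t v) * √(Mf t' v') ≤ M12 t v t' v' := by
  have h12 : 0 ≤ M12 t v t' v' := by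
    unfold M12
    refine mul_nonneg (by norm_num) (sum_nonneg fun i _ => sum_nonneg fun j _ => ?_)
    exact mul_nonneg (mul_nonneg (ht i) (ht' j)) (le_max_of_le_left (by positivity))
  rcases (TX_nonneg (v := v') ht').eq_or_lt with h0 | h0
  · have h1 := Mf_le_mul (v := v') ht'
    rw [← h0, zero_mul] at h1
    have h2 : √(Mf t' v') = 0 := Real.sqrt_eq_zero_of_nonpos h1
    rw [h2, mul_zero]
    exact h12
  · have hM1 := Mf_nonneg (v := v) ht
    have hM2 := Mf_nonneg (v := v') ht'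
    have h1 := lorentz t v t' v' (TX t v / TX t' v')
    have e1 : TX t v - TX t v / TX t' v' * TX t' v' = 0 := by field_simp; ring
    rw [e1, zero_mul] at h1
    obtain ⟨l, hl⟩ : ∃ l, l = TX t v / TX t' v' := ⟨_, rfl⟩
    rw [← hl] at h1
    have hl0 : 0 ≤ l := by
      rw [hl]
      exact div_nonneg (TX_nonneg ht) h0.le
    rcases hl0.eq_or_lt with h2 | h2
    · rw [← h2] at h1
      have h3 : √(Mf t v) = 0 := Real.sqrt_eq_zero_of_nonpos (by linarith)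
      rw [h3, zero_mul]
      exact h12
    · have s1 := Real.sq_sqrt hM1
      have s2 := Real.sq_sqrt hM2
      have h3 : 2 * l * (√(Mf t v) * √(Mf t' v')) ≤ 2 * l * M12 t v t' v' := by
        nlinarith [sq_nonneg (√(Mf t v) - l * √(Mf t' v'))]
      exact le_of_mul_le_mul_left h3 (by positivity)

/-- mixtures of two families -/
theorem mix {m m' : ℕ} {t : Fin m → ℝ} {v : Fin m → ℝ × ℝ} {t' : Fin m' → ℝ}
    {v' : Fin m' → ℝ × ℝ} (ht : ∀ i, 0 ≤ t i) (ht' : ∀ i, 0 ≤ t' i) (ht1 : ∑ i, t i = 1)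
    (ht1' : ∑ i, t' i = 1) (hv : ∀ i, |(v i).1| + |(v i).2| ≤ 1)
    (hv' : ∀ i, |(v' i).1| + |(v' i).2| ≤ 1) {s r : ℝ} (hs : 0 ≤ s) (hr : 0 ≤ r) (hsr : s + r = 1) :
    ∃ (m'' : ℕ) (t'' : Fin m'' → ℝ) (v'' : Fin m'' → ℝ × ℝ), (∀ i, 0 ≤ t'' i) ∧ ∑ i, t'' i = 1 ∧
      (∀ i, |(v'' i).1| + |(v'' i).2| ≤ 1) ∧ TX t'' v'' = s * TX t v + r * TX t' v' ∧
      TY t'' v'' = s * TY t v + r * TY t' v' ∧
      Mf t'' v'' = s ^ 2 * Mf t v + 2 * (s * r) * M12 t v t' v' + r ^ 2 * Mf t' v' ∧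
      ∀ I : ℝ × ℝ → ℝ, ∑ i, t'' i * I (v'' i) = s * ∑ i, t i * I (v i) + r * ∑ i, t' i * I (v' i) := by
  refine ⟨m + m', Fin.append (fun i => s * t i) (fun i => r * t' i), Fin.append v v', ?_, ?_, ?_, ?_,
    ?_, ?_, ?_⟩
  · intro i
    refine Fin.addCases (fun i => ?_) (fun i => ?_) i
    · rw [Fin.append_left]; exact mul_nonneg hs (ht i)
    · rw [Fin.append_right]; exact mul_nonneg hr (ht' i)
  · rw [Fin.sum_univ_add]
    simp only [Fin.append_left, Fin.append_right]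
    rw [← mul_sum, ← mul_sum, ht1, ht1']
    linarith
  · intro i
    refine Fin.addCases (fun i => ?_) (fun i => ?_) i
    · rw [Fin.append_left]; exact hv i
    · rw [Fin.append_right]; exact hv' i
  · unfold TX
    rw [Fin.sum_univ_add]
    simp only [Fin.append_left, Fin.append_right]
    rw [mul_sum, mul_sum]
    congr 1
    · exact sum_congr rfl fun i _ => by ring
    · exact sum_congr rfl fun i _ => by ring
  · unfold TY
    rw [Fin.sum_univ_add]
    simp only [Fin.append_left, Fin.append_right]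
    rw [mul_sum, mul_sum]
    congr 1
    · exact sum_congr rfl fun i _ => by ring
    · exact sum_congr rfl fun i _ => by ring
  · rw [Mf_append, Mf_smul, Mf_smul, M12_smul]
    ring
  · intro I
    rw [Fin.sum_univ_add]
    simp only [Fin.append_left, Fin.append_right]
    rw [mul_sum, mul_sum]
    congr 1
    · exact sum_congr rfl fun i _ => by ring
    · exact sum_congr rfl fun i _ => by ring

end Pool.Agent.K6.H5.WHA
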