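import Pool.Agent.K6.H23.WA.AsmT
import Pool.Agent.K6.H23.WA.PieceP3
import Pool.Agent.K6.H5.WHA.Defs

/-!
Convex chains with given total width and depth.
-/

set_option autoImplicit false

namespace Pool.Agent.K6.H5.WHA

open Pool.Agent.TH795.EP Pool.Agent.TH795.EP2 Pool.Agent.TH795.SE2 Pool.Agent.TH262.SawL H981 Finset
open Pool.Agent.Y981.L2 (Rate an ln)
open Pool.Agent.K6.H5.JW (ps)
open Pool.Agent.K6.H23.WA

open Pool.Agent.K6.H23.WA.P3 in
/-- the chain with its region -/
theorem chain' : ∃ K : ℝ, 0 ≤ K ∧ ∀ n : ℕ, 2 ≤ n → ∀ M : ℕ, 1 ≤ M → ∀ k l m : ℕ → ℕ,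
    (∀ i < M, 1 ≤ k i ∧ 1 ≤ l i ∧ 2 ≤ m i ∧ (k i + l i) % 2 = m i % 2 ∧ k i + l i ≤ m i) →
    (∀ i j, i ≤ j → j < M → l j * k i ≤ l i * k j) → 2 * ∑ i ∈ range M, m i ≤ n →
      ∃ m' ≤ 2 * ∑ i ∈ range M, m i, mu ^ m' *
        Real.exp (-(2 * ∑ i ∈ range M, m i * Rate ((k i : ℝ) / m i, (l i : ℝ) / m i) +
          K * M * Real.log n ^ 2)) ≤ ss (Xw k M) (dep k l M) m' := by
  obtain ⟨K1, hK1, hline⟩ := wr_line
  obtain ⟨K, hK0, hUp, -⟩ := exists_K
  refine ⟨2 * (K1 + (2 * K + 13)), by positivity, ?_⟩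
  intro n hn M hM k l m hklm hc hmn
  have hk : ∀ i < M, 1 ≤ k i := fun i hi => (hklm i hi).1
  have hl : ∀ i < M, 1 ≤ l i := fun i hi => (hklm i hi).2.1
  have hx1 : 1 ≤ xs k M := by
    have := xs_mono (k := k) (show 1 ≤ M from hM)
    rw [xs_succ, xs_zero] at this
    have : (1 : ℤ) ≤ k 0 := by exact_mod_cast hk 0 (by omega)
    omega
  set R : ℤ × ℤ → Prop := fun p => 0 < p.1 → p.1 < Xw k M → p.2 ≤ -dep k l M p.1 with hRdef
  set w : ℕ → ℤ × ℤ := fun s => if s < M then ((k s : ℤ), -(l s : ℤ)) else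
    ((k (2 * M - 1 - s) : ℤ), (l (2 * M - 1 - s) : ℤ)) with hw
  set z : ℕ → ℤ × ℤ := fun s => if s < M then (xs k s, -(ys l s : ℤ)) else
    (Xw k M - xs k (2 * M - s), -(ys l (2 * M - s) : ℤ)) with hz
  set ml : ℕ → ℕ := fun s => if s < M then m s else m (2 * M - 1 - s) with hml
  set B : ℕ → ℝ := fun s => if s < M then m s * Rate ((k s : ℝ) / m s, (l s : ℝ) / m s) else
    m (2 * M - 1 - s) * Rate ((k (2 * M - 1 - s) : ℝ) / m (2 * M - 1 - s),
      (l (2 * M - 1 - s) : ℝ) / m (2 * M - 1 - s)) with hB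
  have hmlsum : ∑ s ∈ range (2 * M), ml s = 2 * ∑ i ∈ range M, m i := by
    rw [hml, sum_refl m M]; ring
  have hBsum : ∑ s ∈ range (2 * M), B s =
      2 * ∑ i ∈ range M, m i * Rate ((k i : ℝ) / m i, (l i : ℝ) / m i) := by
    rw [hB, sum_refl (fun i => m i * Rate ((k i : ℝ) / m i, (l i : ℝ) / m i)) M]; ring
  have hmi : ∀ i < M, m i ≤ n := by
    intro i hi
    have := Finset.single_le_sum (f := m) (fun j _ => Nat.zero_le _) (mem_range.2 hi)
    omega
  have hrun := run hn (K := K) (K1 := K1) (fun j hj => hUp n hn j hj) R z w ml B (2 * M)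
    ?_ ?_ ?_ ?_ (by rw [hmlsum]; exact hmn) ?_ (2 * M) le_rfl
  · obtain ⟨m', hm', g⟩ := hrun
    refine ⟨m', by rw [← hmlsum]; exact hm', ?_⟩
    have hz2 : z (2 * M) = (Xw k M, 0) := by
      simp only [hz]
      rw [if_neg (by omega), Nat.sub_self, xs_zero, ys_zero]
      simp
    rw [hz2, hBsum] at g
    have e : wr R (Xw k M, 0) m' = ss (Xw k M) (dep k l M) m' := rfl
    rw [e] at g
    refine le_trans (le_of_eq ?_) g
    congr 2
    push_cast
    ring
  · simp only [hz]
    rw [if_pos (by omega), xs_zero, ys_zero]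
    simp
  · intro s hs
    simp only [hz, hw]
    rcases lt_trichotomy (s + 1) M with h | h | h
    · rw [if_pos h, if_pos (by omega), if_pos (by omega), xs_succ, ys_succ]
      push_cast
      simp only [Prod.mk.injEq]
      constructor <;> first | trivial | ring
    · rw [if_neg (by omega), if_pos (by omega), if_pos (by omega)]
      have e : 2 * M - (s + 1) = s + 1 := by omega
      have e2 : M = s + 1 := h.symm
      rw [e, xs_succ, ys_succ]
      unfold Xw
      rw [e2, xs_succ]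
      push_cast
      simp only [Prod.mk.injEq]
      constructor <;> first | trivial | ring
    · rw [if_neg (by omega), if_neg (by omega), if_neg (by omega)]
      have e : 2 * M - s = (2 * M - (s + 1)) + 1 := by omega
      have e2 : 2 * M - 1 - s = 2 * M - (s + 1) := by omega
      rw [e, e2, xs_succ, ys_succ]
      push_cast
      simp only [Prod.mk.injEq]
      constructor <;> first | trivial | ring
  · intro h
    exact absurd h (lt_irrefl _)
  · intro s hs p hp h1 h2
    simp only [hz, hw] at hp h1 h2 ⊢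
    rcases lt_or_ge s M with h | h
    · rw [if_pos h] at hp h1 h2 ⊢
      simp only at hp h1 h2 ⊢
      unfold ps at hp
      refine below hk hl hc h ?_ h1
      linarith
    · rw [if_neg (by omega)] at hp h1 h2 ⊢
      simp only at hp h1 h2 ⊢
      unfold ps at hp
      have hi : 2 * M - 1 - s < M := by omega
      have e : 2 * M - s = (2 * M - 1 - s) + 1 := by omega
      set i := 2 * M - 1 - s with hidef
      rw [e, xs_succ] at h1 h2 ⊢
      rw [ys_succ]
      push_cast
      have hb := below (k := k) (l := l) (M := M) hk hl hc hi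
        (x := Xw k M - (Xw k M - (xs k i + k i) + p.1)) (y := -((ys l i : ℤ) + l i) + p.2)
        (by linarith) (by linarith)
      rw [dep_symm] at hb
      exact hb
  · intro s hs
    have key : ∀ i < M, ∀ sg : ℤ, (sg = 1 ∨ sg = -1) → ∃ m' ≤ m i,
        mu ^ m' * Real.exp (-(m i * Rate ((k i : ℝ) / m i, (l i : ℝ) / m i) +
          K1 * Real.log n ^ 2)) ≤
        wr (fun p => ps (k i) (sg * l i) p ≤ 0) ((k i : ℤ), sg * l i) m' := by
      intro i hi sg hsg
      obtain ⟨h1, h2, h3, h4, h5⟩ := hklm i hi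
      have hm0 : (0 : ℝ) < m i := by
        have : 0 < m i := by omega
        exact_mod_cast this
      obtain ⟨m', hm', g⟩ := hline n hn (m i) h3 (hmi i hi) (k i) (sg * l i)
        (by
          intro h
          rw [Prod.mk.injEq] at h
          have := h.1
          omega)
        (by rcases hsg with rfl | rfl <;> omega)
        (by
          have e1 : |sg * (l i : ℤ)| = l i := by
            rcases hsg with rfl | rfl
            · rw [one_mul, abs_of_nonneg (by positivity)]
            · rw [neg_one_mul, abs_neg, abs_of_nonneg (by positivity)]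
          rw [e1, abs_of_nonneg (by positivity)]
          exact_mod_cast h5)
      refine ⟨m', hm', ?_⟩
      have er : Rate (((k i : ℤ) : ℝ) / m i, ((sg * (l i : ℤ) : ℤ) : ℝ) / m i) =
          Rate ((k i : ℝ) / m i, (l i : ℝ) / m i) := by
        have ha1 : |((k i : ℤ) : ℝ) / m i| = (k i : ℝ) / m i := by
          rw [Int.cast_natCast, abs_of_nonneg (by positivity)]
        have ha2 : |((sg * (l i : ℤ) : ℤ) : ℝ) / m i| = (l i : ℝ) / m i := by
          rcases hsg with rfl | rfl
          · rw [one_mul, Int.cast_natCast, abs_of_nonneg (by positivity)]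
          · rw [neg_one_mul, Int.cast_neg, Int.cast_natCast, neg_div, abs_neg,
              abs_of_nonneg (by positivity)]
        have hd : (((k i : ℤ) : ℝ) / m i, ((sg * (l i : ℤ) : ℤ) : ℝ) / m i) ∈
            Pool.Agent.Y981.L2.Dia := by
          change |((k i : ℤ) : ℝ) / m i| + |((sg * (l i : ℤ) : ℤ) : ℝ) / m i| ≤ 1
          rw [ha1, ha2, ← add_div, div_le_one hm0]
          exact_mod_cast h5
        have := Pool.Agent.K6.H5.JW.rate_abs _ hd
        rw [← this]
        simp only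
        rw [ha1, ha2]
      rw [er] at g
      exact g
    simp only [hw, hml, hB]
    rcases lt_or_ge s M with h | h
    · have hk1 := key s h (-1) (Or.inr rfl)
      simp only [neg_one_mul] at hk1
      simp only [if_pos h]
      exact hk1
    · have hk1 := key (2 * M - 1 - s) (by omega) 1 (Or.inl rfl)
      simp only [one_mul] at hk1
      simp only [if_neg (show ¬ s < M by omega)]
      exact hk1



open Pool.Agent.K6.H23.WA.P3 in
/-- the chain for vectors in any order, with the optimal order for the area -/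
theorem chain_max' : ∃ K : ℝ, 0 ≤ K ∧ ∀ n : ℕ, 2 ≤ n → ∀ M : ℕ, 1 ≤ M → ∀ k l m : Fin M → ℕ,
    (∀ i, 1 ≤ k i ∧ 1 ≤ l i ∧ 2 ≤ m i ∧ (k i + l i) % 2 = m i % 2 ∧ k i + l i ≤ m i) →
    2 * ∑ i, m i ≤ n →
    ∃ (X : ℤ) (D : ℤ → ℤ), 2 ≤ X ∧ (∀ x, 0 < x → x < X → 1 ≤ D x ∧ D (X - x) = D x) ∧
      X = 2 * ∑ i, (k i : ℤ) ∧
      (∃ x, 0 < x ∧ x < X ∧ ∀ b : ℕ, (∀ i, l i ≤ b) → ∑ i, (l i : ℤ) ≤ D x + b) ∧
      ((4 * ∑ j, ∑ i ∈ univ.filter (· < j), max (l i * k j) (l j * k i) : ℕ) : ℤ) ≤
        ∑ x ∈ Ioo 0 X, 2 * D x ∧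
      ∃ m' ≤ 2 * ∑ i, m i, mu ^ m' *
        Real.exp (-(2 * ∑ i, m i * Rate ((k i : ℝ) / m i, (l i : ℝ) / m i) +
          K * M * Real.log n ^ 2)) ≤ ss X D m' := by
  obtain ⟨K, hK, h⟩ := chain'
  refine ⟨K, hK, ?_⟩
  intro n hn M hM k l m hkl hs
  let σ : Equiv.Perm (Fin M) := Tuple.sort (fun i => -((l i : ℚ) / k i))
  have hmono : Monotone ((fun i => -((l i : ℚ) / k i)) ∘ σ) := Tuple.monotone_sort _
  have hsl : ∀ i j : Fin M, i ≤ j → l (σ j) * k (σ i) ≤ l (σ i) * k (σ j) := by
    intro i j hij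
    have h1 := hmono hij
    simp only [Function.comp_apply, neg_le_neg_iff] at h1
    have h2 : (0 : ℚ) < k (σ i) := by exact_mod_cast (hkl (σ i)).1
    have h3 : (0 : ℚ) < k (σ j) := by exact_mod_cast (hkl (σ j)).1
    rw [div_le_div_iff₀ h3 h2] at h1
    exact_mod_cast h1
  let e : (Fin M → ℕ) → ℕ → ℕ := fun g i => if h : i < M then g (σ ⟨i, h⟩) else 0
  have he : ∀ (g : Fin M → ℕ) (i : Fin M), e g i = g (σ i) := by
    intro g i
    simp [e]
  have hsum : ∀ g : Fin M → ℕ, ∑ i ∈ range M, e g i = ∑ i, g i := by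
    intro g
    rw [Finset.sum_range, ← Equiv.sum_comp σ g]
    exact Finset.sum_congr rfl fun i _ => he g i
  have hcond : ∀ i < M, 1 ≤ e k i ∧ 1 ≤ e l i ∧ 2 ≤ e m i ∧ (e k i + e l i) % 2 = e m i % 2 ∧
      e k i + e l i ≤ e m i := by
    intro i hi
    have := hkl (σ ⟨i, hi⟩)
    have e1 := he k ⟨i, hi⟩
    have e2 := he l ⟨i, hi⟩
    have e3 := he m ⟨i, hi⟩
    simp only at e1 e2 e3
    rw [e1, e2, e3]
    exact this
  obtain ⟨m', hm', hlow⟩ := h n hn M hM (e k) (e l) (e m) hcond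
    (by
      intro i j hij hj
      have e1 := he k ⟨i, by omega⟩
      have e2 := he l ⟨i, by omega⟩
      have e3 := he k ⟨j, hj⟩
      have e4 := he l ⟨j, hj⟩
      simp only at e1 e2 e3 e4
      rw [e1, e2, e3, e4]
      exact hsl _ _ hij)
    (by rw [hsum]; exact hs)
  have hk : ∀ i < M, 1 ≤ e k i := fun i hi => (hcond i hi).1
  have hx1 : 1 ≤ xs (e k) M := by
    have := xs_mono (k := e k) (show 1 ≤ M from hM)
    rw [xs_succ, xs_zero] at this
    have : (1 : ℤ) ≤ e k 0 := by exact_mod_cast hk 0 (by omega)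
    omega
  have hXw : Xw (e k) M = 2 * ∑ i, (k i : ℤ) := by
    unfold Xw P3.xs
    have := hsum k
    congr 1
    exact_mod_cast this
  refine ⟨Xw (e k) M, dep (e k) (e l) M, by unfold Xw; omega,
    fun x _ _ => ⟨one_le_dep x, dep_symm x⟩, hXw, ?_, ?_, m', by rw [hsum] at hm'; exact hm', ?_⟩
  · refine ⟨xs (e k) M, by omega, by unfold Xw; omega, ?_⟩
    intro b hb
    have h1 : (ys (e l) (M - 1) : ℤ) ≤ dep (e k) (e l) M (xs (e k) M) := by
      have h2 := xs_mono (k := e k) (show M - 1 ≤ M by omega)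
      apply le_dep (by omega) h2
      unfold Xw
      omega
    have h2 : ∑ i, (l i : ℤ) = ys (e l) M := by
      have := hsum l
      unfold P3.ys
      exact_mod_cast this.symm
    have h3 : ys (e l) M = ys (e l) (M - 1) + e l (M - 1) := by
      have := ys_succ (l := e l) (M - 1)
      rwa [show M - 1 + 1 = M by omega] at this
    have h4 : e l (M - 1) ≤ b := by
      have := he l ⟨M - 1, by omega⟩
      simp only at this
      rw [this]
      exact hb _
    rw [h2, h3]
    push_cast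
    have h5 : (e l (M - 1) : ℤ) ≤ b := by exact_mod_cast h4
    linarith
  · refine le_trans ?_ (cells hk hM)
    have e1 := sum_fin_lt (M := M) (fun i j => e l i * e k j)
    simp only [he] at e1
    have e2 : ∑ j, ∑ i ∈ univ.filter (· < j), max (l i * k j) (l j * k i) ≤
        ∑ j : Fin M, ∑ i ∈ univ.filter (· < j), l (σ i) * k (σ j) := by
      have h1 := pair_perm (fun i j : Fin M => max (l i * k j) (l j * k i))
        (fun i j => max_comm _ _) σ
      calc ∑ j, ∑ i ∈ univ.filter (· < j), max (l i * k j) (l j * k i)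
          = ∑ j, ∑ i ∈ univ.filter (· < j), max (l (σ i) * k (σ j)) (l (σ j) * k (σ i)) :=
            h1.symm
        _ ≤ _ := by
            refine Finset.sum_le_sum fun j _ => Finset.sum_le_sum fun i hi => ?_
            rw [mem_filter] at hi
            exact max_le le_rfl (hsl i j hi.2.le)
    rw [e1]
    exact_mod_cast Nat.mul_le_mul_left 4 e2
  · have e3 : ∑ i ∈ range M, (e m i : ℝ) * Rate ((e k i : ℝ) / e m i, (e l i : ℝ) / e m i) =
        ∑ i, (m i : ℝ) * Rate ((k i : ℝ) / m i, (l i : ℝ) / m i) := by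
      rw [Finset.sum_range,
        ← Equiv.sum_comp σ (fun i => (m i : ℝ) * Rate ((k i : ℝ) / m i, (l i : ℝ) / m i))]
      exact Finset.sum_congr rfl fun i _ => by rw [he, he, he]
    rw [e3] at hlow
    exact hlow

end Pool.Agent.K6.H5.WHA
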