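import Pool.Agent.K6.H5.WHA.Eq
import Pool.Agent.K6.H23.WA.Low2T

/-!
Properties of the joint rate function.
-/

set_option autoImplicit false

namespace Pool.Agent.K6.H5.WHA

open Finset
open Pool.Agent.K6.H23.WA (RateFn Mf rateFn_mono)

theorem J3_nonneg {I : ℝ × ℝ → ℝ} {κ : ℝ} (hI : RateFn I κ) (x y a : ℝ) : 0 ≤ J3 I x y a := by
  apply Real.sInf_nonneg
  rintro c ⟨m, t, v, ht, -, hv, -, -, -, rfl⟩
  exact sum_nonneg fun i _ => mul_nonneg (ht i) (hI.nonneg _ (hv i))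

/-- `(x, y, b) ↦ J (x, y, b²)` is convex -/
theorem J3_mix {I : ℝ × ℝ → ℝ} {κ : ℝ} (hI : RateFn I κ) {x y a x' y' a' : ℝ} (h : Feas x y a)
    (h' : Feas x' y' a') {s r : ℝ} (hs : 0 ≤ s) (hr : 0 ≤ r) (hsr : s + r = 1) :
    Feas (s * x + r * x') (s * y + r * y') ((s * √a + r * √a') ^ 2) ∧
    J3 I (s * x + r * x') (s * y + r * y') ((s * √a + r * √a') ^ 2) ≤
      s * J3 I x y a + r * J3 I x' y' a' := by
  have key : ∀ ε : ℝ, 0 < ε → Feas (s * x + r * x') (s * y + r * y') ((s * √a + r * √a') ^ 2) ∧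
      J3 I (s * x + r * x') (s * y + r * y') ((s * √a + r * √a') ^ 2) ≤
      s * J3 I x y a + r * J3 I x' y' a' + ε := by
    intro ε hε
    obtain ⟨m, t, v, ht, ht1, hv, h1, h2, h3, h4⟩ := exists_family (I := I) h hε
    obtain ⟨m', t', v', ht', ht1', hv', h1', h2', h3', h4'⟩ := exists_family (I := I) h' hε
    obtain ⟨m'', t'', v'', ht'', ht1'', hv'', e1, e2, e3, e4⟩ :=
      mix ht ht' ht1 ht1' hv hv' hs hr hsr
    have g1 : s * x + r * x' ≤ TX t'' v'' := by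
      rw [e1]
      have := mul_le_mul_of_nonneg_left h1 hs
      have := mul_le_mul_of_nonneg_left h1' hr
      linarith
    have g2 : s * y + r * y' ≤ TY t'' v'' := by
      rw [e2]
      have := mul_le_mul_of_nonneg_left h2 hs
      have := mul_le_mul_of_nonneg_left h2' hr
      linarith
    have g3 : (s * √a + r * √a') ^ 2 ≤ Mf t'' v'' := by
      rw [e3]
      have q1 := Real.sqrt_le_sqrt h3
      have q2 := Real.sqrt_le_sqrt h3'
      have q3 := minkowski (v := v) (v' := v') ht ht'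
      have q4 := Real.sq_sqrt (Mf_nonneg (v := v) ht)
      have q5 := Real.sq_sqrt (Mf_nonneg (v := v') ht')
      have q6 : s * √a + r * √a' ≤ s * √(Mf t v) + r * √(Mf t' v') := by
        have := mul_le_mul_of_nonneg_left q1 hs
        have := mul_le_mul_of_nonneg_left q2 hr
        linarith
      have q7 : 0 ≤ s * √a + r * √a' := by positivity
      have q8 : (s * √a + r * √a') ^ 2 ≤ (s * √(Mf t v) + r * √(Mf t' v')) ^ 2 :=
        pow_le_pow_left₀ q7 q6 2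
      have q9 := mul_le_mul_of_nonneg_left q3 (mul_nonneg hs hr)
      nlinarith
    refine ⟨feas_of_nonempty (I := I) ⟨_, m'', t'', v'', ht'', ht1'', hv'', g1, g2, g3, rfl⟩, ?_⟩
    have g4 := J3_le hI ht'' ht1'' hv'' g1 g2 g3
    rw [e4 I] at g4
    have g5 := mul_le_mul_of_nonneg_left h4 hs
    have g6 := mul_le_mul_of_nonneg_left h4' hr
    have g7 : s * ε + r * ε = ε := by rw [← add_mul, hsr, one_mul]
    linarith
  exact ⟨(key 1 one_pos).1, le_of_forall_pos_le_add fun ε hε => (key ε hε).2⟩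

theorem J3_rect {I : ℝ × ℝ → ℝ} {κ : ℝ} (hI : RateFn I κ) {X Y : ℝ} (hX : 0 ≤ X) (hY : 0 ≤ Y)
    (h : X + Y = 1) : Feas X Y (X * Y) ∧ J3 I X Y (X * Y) ≤ κ := by
  refine ⟨⟨X, Y, hX, hY, le_rfl, le_rfl, h.le, le_rfl⟩, ?_⟩
  obtain ⟨e1, e2, e3⟩ := rect_spec hX hY
  have ht : ∀ i, 0 ≤ (![X, Y] : Fin 2 → ℝ) i := by
    intro i
    fin_cases i
    · simpa using hX
    · simpa using hY
  have hv : ∀ i, |(![((1 : ℝ), (0 : ℝ)), (0, 1)] i).1| + |(![((1 : ℝ), (0 : ℝ)), (0, 1)] i).2| ≤ 1 := by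
    intro i
    fin_cases i <;> simp
  have h1 : ∑ i, (![X, Y] : Fin 2 → ℝ) i = 1 := by
    simp [Fin.sum_univ_two]
    exact h
  refine (J3_le hI ht h1 hv e1.ge e2.ge e3.ge).trans ?_
  calc ∑ i, (![X, Y] : Fin 2 → ℝ) i * I (![((1 : ℝ), (0 : ℝ)), (0, 1)] i)
      ≤ ∑ i, (![X, Y] : Fin 2 → ℝ) i * κ :=
        sum_le_sum fun i _ => mul_le_mul_of_nonneg_left (hI.le _ (hv i)) (ht i)
    _ = κ := by rw [← sum_mul, h1, one_mul]

theorem kappa_nonneg {I : ℝ × ℝ → ℝ} {κ : ℝ} (hI : RateFn I κ) : 0 ≤ κ :=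
  (hI.nonneg (0, 0) (by simp)).trans (hI.le (0, 0) (by simp))

/-- continuity inside the feasible set -/
theorem J3_cont {I : ℝ × ℝ → ℝ} {κ : ℝ} (hI : RateFn I κ) {x y a : ℝ} (h : SFeas x y a) {ε : ℝ}
    (hε : 0 < ε) : ∃ δ : ℝ, 0 < δ ∧ Feas (x + δ) (y + δ) (a + δ) ∧
      J3 I (x + δ) (y + δ) (a + δ) ≤ J3 I (x - δ) (y - δ) (a - δ) + ε := by
  obtain ⟨X, Y, hX, hY, h1, h2, h3, h4⟩ := h
  have hκ := kappa_nonneg hI
  -- the rectangle with half perimeter `1`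
  obtain ⟨X0, hX0⟩ : ∃ X0, X0 = X + (1 - X - Y) / 2 := ⟨_, rfl⟩
  obtain ⟨Y0, hY0⟩ : ∃ Y0, Y0 = Y + (1 - X - Y) / 2 := ⟨_, rfl⟩
  have p1 : 0 < X0 := by rw [hX0]; linarith
  have p2 : 0 < Y0 := by rw [hY0]; linarith
  have p3 : x < X0 := by rw [hX0]; linarith
  have p4 : y < Y0 := by rw [hY0]; linarith
  have p5 : X0 + Y0 = 1 := by rw [hX0, hY0]; ring
  have p6 : a < X0 * Y0 := by
    have : X * Y ≤ X0 * Y0 := mul_le_mul (by rw [hX0]; linarith) (by rw [hY0]; linarith) hY p1.le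
    linarith
  obtain ⟨hfr, hJr⟩ := J3_rect hI p1.le p2.le p5
  have hS : √a < √(X0 * Y0) := Real.sqrt_lt_sqrt_iff_of_pos (mul_pos p1 p2) |>.2 p6
  -- the weight
  obtain ⟨r, hr0, hr1, hrε⟩ : ∃ r : ℝ, 0 < r ∧ r ≤ 1 ∧ r * κ ≤ ε := by
    refine ⟨min 1 (ε / (κ + 1)), lt_min one_pos (by positivity), min_le_left _ _, ?_⟩
    calc min 1 (ε / (κ + 1)) * κ ≤ (ε / (κ + 1)) * κ :=
          mul_le_mul_of_nonneg_right (min_le_right _ _) hκ
      _ ≤ (ε / (κ + 1)) * (κ + 1) := by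
          apply mul_le_mul_of_nonneg_left (by linarith) (by positivity)
      _ = ε := by field_simp
  -- the condition on `δ`
  have hcont : Filter.Tendsto (fun δ : ℝ => ((1 - r) * √(a - δ) + r * √(X0 * Y0)) ^ 2 - (a + δ))
      (nhds 0) (nhds (((1 - r) * √(a - 0) + r * √(X0 * Y0)) ^ 2 - (a + 0))) := by
    apply Continuous.tendsto
    fun_prop
  have hpos : 0 < ((1 - r) * √(a - 0) + r * √(X0 * Y0)) ^ 2 - (a + 0) := by
    rw [sub_zero, add_zero]
    rcases le_or_gt 0 a with ha | ha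
    · have q1 := Real.sq_sqrt ha
      have q2 := Real.sqrt_nonneg a
      have q3 : √a < (1 - r) * √a + r * √(X0 * Y0) := by nlinarith
      nlinarith
    · have := sq_nonneg ((1 - r) * √a + r * √(X0 * Y0))
      linarith
  have hev := hcont.eventually (lt_mem_nhds hpos)
  rw [Metric.eventually_nhds_iff] at hev
  obtain ⟨δ0, hδ0, hev⟩ := hev
  obtain ⟨δ, hδ, d1, d2, d3, d4, d5, d6⟩ : ∃ δ : ℝ, 0 < δ ∧ δ < δ0 ∧ δ ≤ r * (X0 - x) / 2 ∧
      δ ≤ r * (Y0 - y) / 2 ∧ δ ≤ X - x ∧ δ ≤ Y - y ∧ δ ≤ X * Y - a := by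
    refine ⟨min (δ0 / 2) (min (r * (X0 - x) / 2) (min (r * (Y0 - y) / 2) (min (X - x)
      (min (Y - y) (X * Y - a))))), ?_, ?_, ?_, ?_, ?_, ?_, ?_⟩
    · have e1 : 0 < X0 - x := by linarith
      have e2 : 0 < Y0 - y := by linarith
      refine lt_min (by linarith) (lt_min (by positivity) (lt_min (by positivity)
        (lt_min (by linarith) (lt_min (by linarith) (by linarith)))))
    · exact (min_le_left _ _).trans_lt (by linarith)
    · exact (min_le_right _ _).trans (min_le_left _ _)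
    · exact (min_le_right _ _).trans ((min_le_right _ _).trans (min_le_left _ _))
    · exact (min_le_right _ _).trans ((min_le_right _ _).trans ((min_le_right _ _).trans
        (min_le_left _ _)))
    · exact (min_le_right _ _).trans ((min_le_right _ _).trans ((min_le_right _ _).trans
        ((min_le_right _ _).trans (min_le_left _ _))))
    · exact (min_le_right _ _).trans ((min_le_right _ _).trans ((min_le_right _ _).trans
        ((min_le_right _ _).trans (min_le_right _ _))))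
  have hfp : Feas (x + δ) (y + δ) (a + δ) :=
    ⟨X, Y, hX, hY, by linarith, by linarith, h3.le, by linarith⟩
  have hfm : Feas (x - δ) (y - δ) (a - δ) :=
    hfp.mono (by linarith) (by linarith) (by linarith)
  refine ⟨δ, hδ, hfp, ?_⟩
  obtain ⟨f1, f2⟩ := J3_mix hI hfm hfr (sub_nonneg.2 hr1) hr0.le (by ring)
  have q1 : x + δ ≤ (1 - r) * (x - δ) + r * X0 := by nlinarith
  have q2 : y + δ ≤ (1 - r) * (y - δ) + r * Y0 := by nlinarith
  have q3 : a + δ ≤ ((1 - r) * √(a - δ) + r * √(X0 * Y0)) ^ 2 := by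
    have := hev (y := δ) (by rw [dist_zero_right, Real.norm_of_nonneg hδ.le]; exact d1)
    linarith
  have q4 := J3_mono hI q1 q2 q3 f1
  have q5 := J3_nonneg hI (x - δ) (y - δ) (a - δ)
  have q6 : r * J3 I X0 Y0 (X0 * Y0) ≤ r * κ := mul_le_mul_of_nonneg_left hJr hr0.le
  have q7 : (1 - r) * J3 I (x - δ) (y - δ) (a - δ) ≤ J3 I (x - δ) (y - δ) (a - δ) := by
    nlinarith
  linarith

/-- the cost of a family is at least the cost of its mean -/
theorem jensen {I : ℝ × ℝ → ℝ} {κ : ℝ} (hI : RateFn I κ) {m : ℕ} {t : Fin m → ℝ}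
    {v : Fin m → ℝ × ℝ} (ht : ∀ i, 0 ≤ t i) (ht1 : ∑ i, t i = 1)
    (hv : ∀ i, |(v i).1| + |(v i).2| ≤ 1) : I (TX t v, TY t v) ≤ ∑ i, t i * I (v i) := by
  have h2 := hI.conv.map_sum_le (t := (univ : Finset (Fin m))) (w := t)
    (p := fun i => (|(v i).1|, |(v i).2|)) (fun i _ => ht i) ht1
    (fun i _ => by
      show |(|(v i).1|)| + |(|(v i).2|)| ≤ 1
      rw [abs_abs, abs_abs]
      exact hv i)
  have h3 : ∑ i, t i • (fun i => (|(v i).1|, |(v i).2|)) i = (TX t v, TY t v) := by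
    ext
    · simp only [Prod.fst_sum, Prod.smul_fst, smul_eq_mul, TX]
    · simp only [Prod.snd_sum, Prod.smul_snd, smul_eq_mul, TY]
  rw [h3] at h2
  refine h2.trans (le_of_eq ?_)
  refine sum_congr rfl fun i _ => ?_
  simp only [smul_eq_mul]
  rw [hI.abs _ (hv i)]

/-- below the area of the rhombus the joint rate function is the rate function of the end point -/
theorem J3_eq {I : ℝ × ℝ → ℝ} {κ : ℝ} (hI : RateFn I κ) {x y a : ℝ} (hx : 0 ≤ x) (hy : 0 ≤ y)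
    (hxy : x + y ≤ 1) (ha : a ≤ x * y / 2) : J3 I x y a = I (x, y) := by
  have e1 : TX (fun _ : Fin 1 => (1 : ℝ)) (fun _ => (x, y)) = x := by
    simp [TX, abs_of_nonneg hx]
  have e2 : TY (fun _ : Fin 1 => (1 : ℝ)) (fun _ => (x, y)) = y := by
    simp [TY, abs_of_nonneg hy]
  have e3 : Mf (fun _ : Fin 1 => (1 : ℝ)) (fun _ => (x, y)) = x * y / 2 := by
    simp [Mf, abs_of_nonneg hx, abs_of_nonneg hy]
    ring
  have hv : ∀ _ : Fin 1, |((x, y) : ℝ × ℝ).1| + |((x, y) : ℝ × ℝ).2| ≤ 1 := by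
    intro _
    simp only
    rw [abs_of_nonneg hx, abs_of_nonneg hy]
    exact hxy
  have hf : Feas x y a := ⟨x, y, hx, hy, le_rfl, le_rfl, hxy, by
    have := mul_nonneg hx hy
    linarith⟩
  apply le_antisymm
  · have h := J3_le hI (x := x) (y := y) (a := a) (t := fun _ : Fin 1 => (1 : ℝ))
      (v := fun _ => (x, y))
      (fun _ => zero_le_one) (by simp) hv e1.ge e2.ge (by rw [e3]; exact ha)
    simpa using h
  · apply le_csInf (costs3_nonempty hf)
    rintro c ⟨m, t, v, ht, ht1, hv', h1, h2, -, rfl⟩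
    refine le_trans ?_ (jensen hI ht ht1 hv')
    exact rateFn_mono hI hx h1 hy h2 (TXY_le ht ht1 hv')

theorem J3_eq_J (I : ℝ × ℝ → ℝ) (a : ℝ) : J3 I 0 0 a = Pool.Agent.K6.H23.WA.J I a := by
  unfold J3 Pool.Agent.K6.H23.WA.J
  congr 1
  ext c
  constructor
  · rintro ⟨m, t, v, ht, ht1, hv, -, -, ha, hc⟩
    exact ⟨m, t, v, ht, ht1, hv, ha, hc⟩
  · rintro ⟨m, t, v, ht, ht1, hv, ha, hc⟩
    exact ⟨m, t, v, ht, ht1, hv, TX_nonneg ht, TY_nonneg ht, ha, hc⟩

end Pool.Agent.K6.H5.WHA
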