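import Pool.Agent.K6.H23.WA.PieceP2
import Pool.Agent.K6.H5.WHA.Defs
import Pool.Agent.K6.H5.JW.Fin

/-!
Polygons around a region: width, height and area.
-/

set_option autoImplicit false

namespace Pool.Agent.K6.H5.WHA

open Pool.Agent.TH795.EP Pool.Agent.TH795.EP2 Pool.Agent.TH795.SE2 Pool.Agent.TH262.SawL H981 Finset
open Pool.Agent.Y981.L2 (Rate an ln)
open Pool.Agent.Y981.L2 (ix ccr ix_shift ccr_ins adj_path bot_of_min path_ge path_zero' path_rot tele
  loop_close card_above' word_ext loops_finite finite_encl Ix one_le_q)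
open Pool.Agent.K6.H23.WA

/-- pairs of words around a region give polygons around the region -/
theorem ss_bound' : ∃ K : ℝ, 0 ≤ K ∧ ∀ n : ℕ, 1 ≤ n → ∀ (X : ℤ) (D : ℤ → ℤ), 2 ≤ X →
    (∀ x, 0 < x → x < X → 1 ≤ D x ∧ D (X - x) = D x) → ∀ m m' : ℕ, m + m' ≤ 2 * n →
    (ss X D m : ℝ) * ss X D m' * mu ^ (2 * n - (m + m')) ≤
      q (2 * n) K * rc' X D (2 * n - 1) := by
  obtain ⟨K, hK, hup, hlow⟩ := exists_K
  refine ⟨4 * K + (K + 21) + 36, by positivity, ?_⟩
  intro n hn X D hX hD m m' hmm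
  obtain ⟨N, hN⟩ : ∃ N, N = 2 * n := ⟨_, rfl⟩
  rw [← hN] at hmm ⊢
  have hN2 : 2 ≤ N := by omega
  have hmu := mu_pos
  have hpair : (ss X D m : ℝ) * ss X D m' ≤ ∑ p ∈ Ix m m', (rc' X D (p.2.2 + p.1.2) : ℝ) *
      ((c p.1.1 * c (m - p.1.1 - p.1.2)) * (c p.2.1 * c (m' - p.2.1 - p.2.2))) := by
    exact_mod_cast pair_leR hX hD m m'
  have hA : (0 : ℝ) ≤ rc' X D (N - 1) := Nat.cast_nonneg _
  have hterm : ∀ p ∈ Ix m m', (rc' X D (p.2.2 + p.1.2) : ℝ) *
      ((c p.1.1 * c (m - p.1.1 - p.1.2)) * (c p.2.1 * c (m' - p.2.1 - p.2.2))) *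
      mu ^ (N - (m + m')) ≤ q N (4 * K) * (8 * (q N (K + 21) * rc' X D (N - 1))) := by
    rintro ⟨⟨j1, m2⟩, ⟨j3, m1⟩⟩ hp
    unfold Ix at hp
    rw [Finset.mem_filter] at hp
    obtain ⟨-, h1, h2⟩ := hp
    simp only at h1 h2 ⊢
    rcases Nat.eq_zero_or_pos (rc' X D (m1 + m2)) with h0 | h0
    · rw [h0, Nat.cast_zero, zero_mul, zero_mul]
      have := q_pos N (4 * K)
      have := q_pos N (K + 21)
      positivity
    · have hodd := rc'_odd h0
      obtain ⟨j, hj⟩ : ∃ j, m1 + m2 + 2 * j = N - 1 := ⟨(N - 1 - (m1 + m2)) / 2, by omega⟩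
      have g0 := rc_lengthen hN2 hK (hlow N hN2) (X := X) (D := D) (m := m1 + m2) (j := j)
        (by omega)
      rw [hj] at g0
      have g1 : (rc' X D (m1 + m2) : ℝ) * mu ^ (2 * j) ≤
          2 * (q N (K + 21) * rc' X D (N - 1)) := by
        have g : (rc' X D (m1 + m2) : ℝ) ≤ 2 * rc X D (m1 + m2) := by
          exact_mod_cast rc'_le X D (m1 + m2)
        calc (rc' X D (m1 + m2) : ℝ) * mu ^ (2 * j) ≤ (2 * rc X D (m1 + m2)) * mu ^ (2 * j) :=
              mul_le_mul_of_nonneg_right g (pow_pos hmu _).le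
          _ = 2 * (rc X D (m1 + m2) * mu ^ (2 * j)) := by ring
          _ ≤ _ := by linarith
      have hc : ∀ i ≤ N, (c i : ℝ) ≤ mu ^ i * q N K := fun i hi => hup N hN2 i hi
      have hc0 : ∀ i, (0 : ℝ) ≤ c i := fun i => Nat.cast_nonneg _
      have hq := q_pos N K
      have g2 : ((c j1 : ℝ) * c (m - j1 - m2)) * (c j3 * c (m' - j3 - m1)) ≤
          mu ^ (m + m' - (m1 + m2)) * q N (4 * K) := by
        calc ((c j1 : ℝ) * c (m - j1 - m2)) * (c j3 * c (m' - j3 - m1))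
            ≤ ((mu ^ j1 * q N K) * (mu ^ (m - j1 - m2) * q N K)) *
              ((mu ^ j3 * q N K) * (mu ^ (m' - j3 - m1) * q N K)) := by
              apply mul_le_mul _ _ (mul_nonneg (hc0 _) (hc0 _)) (by positivity)
              · exact mul_le_mul (hc _ (by omega)) (hc _ (by omega)) (hc0 _) (by positivity)
              · exact mul_le_mul (hc _ (by omega)) (hc _ (by omega)) (hc0 _) (by positivity)
          _ = (mu ^ j1 * mu ^ (m - j1 - m2) * mu ^ j3 * mu ^ (m' - j3 - m1)) *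
              ((q N K * q N K) * (q N K * q N K)) := by ring
          _ = _ := by
              rw [← pow_add, ← pow_add, ← pow_add, q_mul, q_mul]
              congr 2
              · omega
              · ring
      have h4 := mu_le_four
      calc (rc' X D (m1 + m2) : ℝ) * ((c j1 * c (m - j1 - m2)) * (c j3 * c (m' - j3 - m1))) *
            mu ^ (N - (m + m'))
          ≤ (rc' X D (m1 + m2) : ℝ) * (mu ^ (m + m' - (m1 + m2)) * q N (4 * K)) *
            mu ^ (N - (m + m')) := by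
            apply mul_le_mul_of_nonneg_right _ (pow_pos hmu _).le
            exact mul_le_mul_of_nonneg_left g2 (Nat.cast_nonneg _)
        _ = q N (4 * K) * ((rc' X D (m1 + m2) : ℝ) *
            (mu ^ (m + m' - (m1 + m2)) * mu ^ (N - (m + m')))) := by ring
        _ = q N (4 * K) * (((rc' X D (m1 + m2) : ℝ) * mu ^ (2 * j)) * mu) := by
            have e1 : m + m' - (m1 + m2) + (N - (m + m')) = 2 * j + 1 := by omega
            rw [← pow_add, mul_assoc (rc' X D (m1 + m2) : ℝ), ← pow_succ, e1]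
        _ ≤ q N (4 * K) * ((2 * (q N (K + 21) * rc' X D (N - 1))) * 4) := by
            apply mul_le_mul_of_nonneg_left _ (q_pos _ _).le
            exact mul_le_mul g1 h4 hmu.le
              (mul_nonneg (by norm_num) (mul_nonneg (q_pos _ _).le hA))
        _ = _ := by ring
  have hsum := Finset.sum_le_card_nsmul _ _ _ hterm
  rw [nsmul_eq_mul, ← Finset.sum_mul] at hsum
  have hn0 : (2 : ℝ) ≤ N := by exact_mod_cast hN2
  have hcard : (8 : ℝ) * ((Ix m m').card : ℝ) ≤ q N 36 := by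
    have h1 : (Ix m m').card ≤ (N + 1) ^ 4 := by
      unfold Ix
      refine (Finset.card_filter_le _ _).trans ?_
      rw [Finset.card_product, Finset.card_product, Finset.card_product, Finset.card_range,
        Finset.card_range]
      calc (m + 1) * (m + 1) * ((m' + 1) * (m' + 1)) ≤
            (N + 1) * (N + 1) * ((N + 1) * (N + 1)) := by gcongr <;> omega
        _ = _ := by ring
    have h2 : ((Ix m m').card : ℝ) ≤ ((N : ℝ) + 1) ^ 4 := by exact_mod_cast h1
    have h3 : (N : ℝ) + 1 ≤ (N : ℝ) ^ 2 := by nlinarith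
    have h4 : ((N : ℝ) + 1) ^ 4 ≤ (N : ℝ) ^ 8 := by
      calc ((N : ℝ) + 1) ^ 4 ≤ ((N : ℝ) ^ 2) ^ 4 := pow_le_pow_left₀ (by positivity) h3 4
        _ = _ := by ring
    have h5 : (8 : ℝ) ≤ (N : ℝ) ^ 3 := by
      calc (8 : ℝ) = 2 ^ 3 := by norm_num
        _ ≤ (N : ℝ) ^ 3 := pow_le_pow_left₀ (by norm_num) hn0 3
    have h6 := pow_le_q hN2 12
    norm_num at h6
    calc (8 : ℝ) * ((Ix m m').card : ℝ) ≤ (N : ℝ) ^ 3 * (N : ℝ) ^ 8 :=
          mul_le_mul h5 (h2.trans h4) (Nat.cast_nonneg _) (by positivity)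
      _ = (N : ℝ) ^ 11 := by ring
      _ ≤ (N : ℝ) ^ 12 := pow_le_pow_right₀ (by linarith) (by norm_num)
      _ ≤ _ := h6
  have hQ1 := q_pos N (4 * K)
  have hQ2 := q_pos N (K + 21)
  calc (ss X D m : ℝ) * ss X D m' * mu ^ (N - (m + m')) ≤ _ :=
        (mul_le_mul_of_nonneg_right hpair (pow_pos hmu _).le).trans hsum
    _ = (8 * ((Ix m m').card : ℝ)) * ((q N (4 * K) * q N (K + 21)) * rc' X D (N - 1)) := by ring
    _ ≤ q N 36 * ((q N (4 * K) * q N (K + 21)) * rc' X D (N - 1)) :=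
        mul_le_mul_of_nonneg_right hcard (by positivity)
    _ = ((q N (4 * K) * q N (K + 21)) * q N 36) * rc' X D (N - 1) := by ring
    _ = _ := by rw [q_mul, q_mul]


open Pool.Agent.Y981.L2 (Wd)
open Pool.Agent.K6.H5.JW (Ht)

/-- the number of loops with width, height and area at least `k`, `l` and `A` -/
noncomputable def an3 (n : ℕ) (k l : ℤ) (A : ℕ) : ℕ :=
  {f : ZMod (2 * n) → ℤ × ℤ | IsLoop (2 * n) f ∧ Wd k f ∧ Ht l f ∧
    A ≤ Pool.Agent.Y981.L2.area (2 * n) f}.ncard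

theorem exists_above {M : ℕ} {f : ZMod M → ℤ × ℤ} {a b : ℤ}
    (h : Odd (Nat.card {k : ZMod M // Pool.Agent.Y981.L2.Above M f a b k})) :
    ∃ k, Pool.Agent.Y981.L2.Above M f a b k := by
  have h1 : Nat.card {k : ZMod M // Pool.Agent.Y981.L2.Above M f a b k} ≠ 0 := by
    intro h0
    rw [h0] at h
    exact Nat.not_odd_zero h
  rw [Nat.card_ne_zero] at h1
  obtain ⟨⟨k, hk⟩⟩ := h1.1
  exact ⟨k, hk⟩

theorem rc_loop3 {X : ℤ} {D : ℤ → ℤ} {M : ℕ} {V : List St} (hX : 2 ≤ X)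
    (hD : ∀ x, 0 < x → x < X → 1 ≤ D x) {x0 : ℤ} (h0 : 0 < x0) (h1 : x0 < X)
    (hM : M = V.length + 1) (hV : CR' X D V) :
    Wd (X - 1) (fun i : ZMod M => path V i.val) ∧
    Ht (2 * D x0) (fun i : ZMod M => path V i.val) := by
  obtain ⟨hs, hadj, hl, a0, b0, henc⟩ := hV
  have : NeZero M := ⟨by omega⟩
  have hab : ∀ a b : ℤ, 0 < a → a < X → -D a ≤ b → b < D a →
      ∃ k, Pool.Agent.Y981.L2.Above M (fun i : ZMod M => path V i.val) (a0 + a) (b0 + b) k := by
    intro a b g1 g2 g3 g4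
    apply exists_above
    rw [card_above' hM]
    exact (henc a b g1 g2 g3 g4).2
  constructor
  · have d1 := hD 1 (by norm_num) (by omega)
    have d2 := hD (X - 1) (by omega) (by omega)
    obtain ⟨k1, hk1, -⟩ := hab 1 0 (by norm_num) (by omega) (by omega) (by omega)
    obtain ⟨k2, hk2, -⟩ := hab (X - 1) 0 (by omega) (by omega) (by omega) (by omega)
    have e1 : ∃ i : ZMod M, (path V i.val).1 = a0 + 1 := by
      rcases hk1 with h | h
      · exact ⟨k1, h.1⟩
      · exact ⟨k1 + 1, h.2⟩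
    have e2 : ∃ i : ZMod M, (path V i.val).1 = a0 + X := by
      rcases hk2 with h | h
      · exact ⟨k2 + 1, by
          have := h.2
          simp only at this
          rw [this]
          ring⟩
      · exact ⟨k2, by
          have := h.1
          simp only at this
          rw [this]
          ring⟩
    obtain ⟨i, hi⟩ := e1
    obtain ⟨j, hj⟩ := e2
    exact ⟨j, i, by simp only; rw [hi, hj]; linarith⟩
  · have d := hD x0 h0 h1
    obtain ⟨k1, -, hk1⟩ := hab x0 (D x0 - 1) h0 h1 (by omega) (by omega)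
    obtain ⟨⟨i, hi⟩, -⟩ := henc x0 (-D x0) h0 h1 le_rfl (by omega)
    have e1 : ∃ j : ZMod M, (path V j.val).2 ≤ b0 + -D x0 := by
      refine ⟨((min i V.length : ℕ) : ZMod M), ?_⟩
      rw [ZMod.val_cast_of_lt (by omega)]
      rcases le_total i V.length with h | h
      · rw [min_eq_left h]
        exact hi
      · rw [min_eq_right h, ← path_ge h]
        exact hi
    obtain ⟨j, hj⟩ := e1
    refine ⟨k1, j, ?_⟩
    simp only at hk1 ⊢
    linarith

theorem rc_le_an3 {n : ℕ} (hn : 1 ≤ n) {X : ℤ} {D : ℤ → ℤ} (hX : 2 ≤ X)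
    (hD : ∀ x, 0 < x → x < X → 1 ≤ D x) {x0 : ℤ} (h0 : 0 < x0) (h1 : x0 < X) {k l : ℤ} {A : ℕ}
    (hk : k ≤ X - 1) (hl : l ≤ 2 * D x0) (hA : (A : ℤ) ≤ ∑ x ∈ Ioo 0 X, 2 * D x) :
    rc' X D (2 * n - 1) ≤ an3 n k l A := by
  classical
  have hfin := loops_finite hn
  have hfin2 : {f : ZMod (2 * n) → ℤ × ℤ | IsLoop (2 * n) f ∧ Wd k f ∧ Ht l f ∧
      A ≤ Pool.Agent.Y981.L2.area (2 * n) f}.Finite :=
    hfin.subset (fun f hf => hf.1)
  unfold rc' an3
  have hinj : ((fs (CR' X D) (2 * n - 1)).image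
      (fun V : List St => fun i : ZMod (2 * n) => path V i.val)).card =
      (fs (CR' X D) (2 * n - 1)).card := by
    apply Finset.card_image_of_injOn
    intro V hV V' hV' he
    rw [Finset.mem_coe, mem_fs] at hV hV'
    apply word_ext (by omega)
    intro j hj
    have h1 := congrFun he (j : ZMod (2 * n))
    simp only at h1
    rwa [ZMod.val_cast_of_lt (by omega)] at h1
  rw [← hinj, ← Set.ncard_coe_finset]
  apply Set.ncard_le_ncard _ hfin2
  intro f hf
  rw [Finset.mem_coe, Finset.mem_image] at hf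
  obtain ⟨V, hV, rfl⟩ := hf
  rw [mem_fs] at hV
  obtain ⟨hV1, hV2⟩ := hV
  obtain ⟨g1, g2⟩ := rc_loop (fun x hx hx' => by have := hD x hx hx'; omega)
    (show 2 * n = V.length + 1 by omega) hV1
  obtain ⟨⟨i, j, g3⟩, ⟨i', j', g4⟩⟩ := rc_loop3 hX hD h0 h1
    (show 2 * n = V.length + 1 by omega) hV1
  refine ⟨g1, ⟨i, j, hk.trans g3⟩, ⟨i', j', hl.trans g4⟩, le_trans ?_ g2⟩
  omega

end Pool.Agent.K6.H5.WHA
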