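import Pool.Agent.K6.H23.WA.Low2T
import Pool.Agent.K6.H5.WHA.Chain
import Pool.Agent.K6.H5.WHA.SS

/-!
The uniform lower bound for the number of polygons with large width, height and area.
-/

set_option autoImplicit false

namespace Pool.Agent.K6.H5.WHA

open Pool.Agent.TH795.EP Pool.Agent.TH795.EP2 Pool.Agent.TH795.SE2 Pool.Agent.TH262.SawL H981 Finset
open Pool.Agent.Y981.L2 (Rate ln)
open Pool.Agent.K6.H5.JW (ps)
open Pool.Agent.K6.H23.WA
open Filter Topology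

theorem lower_unif3 : ∃ K : ℝ, 0 ≤ K ∧ ∀ n : ℕ, 2 ≤ n → ∀ M : ℕ, 1 ≤ M → ∀ v : Fin M → ℝ × ℝ,
    (∀ i, 0 ≤ (v i).1 ∧ 0 ≤ (v i).2 ∧ (v i).1 + (v i).2 ≤ 1) → 4 * M ≤ n → ∀ (kk ll : ℤ) (A : ℕ),
    (kk : ℝ) + 16 * M ≤ n * TX (fun _ => 1 / (M : ℝ)) v →
    (ll : ℝ) + 16 * M + n / M ≤ n * TY (fun _ => 1 / (M : ℝ)) v →
    (A : ℝ) + 8 * M * n + (n : ℝ) ^ 2 / M ≤ (n : ℝ) ^ 2 * Mf (fun _ => 1 / (M : ℝ)) v →
    0 < an3 n kk ll A ∧ 2 * n * Real.log mu -
      (2 * n * ∑ i, (1 / (M : ℝ)) * Rate (v i) + K * M * Real.log n ^ 2) ≤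
      Real.log (an3 n kk ll A) := by
  obtain ⟨K1, hK1, hch⟩ := chain_max'
  obtain ⟨K2, hK2, hss⟩ := ss_bound'
  have hmu := mu_pos
  have hlmu : 0 ≤ Real.log mu := Real.log_nonneg one_le_mu
  refine ⟨2 * K1 + 4 * K2 + 32 * Real.log mu, by positivity, ?_⟩
  intro n hn M hM v hv hMn kk ll A hkk hll hA
  have hn0 : (0 : ℝ) < n := by exact_mod_cast (by omega : 0 < n)
  have hM0 : (0 : ℝ) < M := by exact_mod_cast hM
  obtain ⟨m, hm⟩ : ∃ m, m = 2 * (n / (4 * M)) := ⟨_, rfl⟩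
  have hm2 : 2 ≤ m := by
    have : 1 ≤ n / (4 * M) := by
      rw [Nat.one_le_div_iff (by omega)]
      omega
    omega
  have hmM : 2 * (M * m) ≤ n := by
    have h1 := Nat.div_mul_le_self n (4 * M)
    rw [hm]
    nlinarith
  have hmM' : n < 2 * (M * m) + 4 * M := by
    have h1 := Nat.lt_div_mul_add (a := n) (b := 4 * M) (by omega)
    rw [hm]
    nlinarith
  have hmMr : 2 * ((M : ℝ) * m) ≤ n := by exact_mod_cast hmM
  have hmMr' : (n : ℝ) < 2 * (M * m) + 4 * M := by exact_mod_cast hmM'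
  have hm2r : (2 : ℝ) ≤ m := by exact_mod_cast hm2
  let k : Fin M → ℕ := fun i => 1 + ev ((v i).1 * (m - 2))
  let l : Fin M → ℕ := fun i => 1 + ev ((v i).2 * (m - 2))
  have hu0 : (0 : ℝ) ≤ (m : ℝ) - 2 := by linarith
  have hkl : ∀ i, (k i : ℝ) ≤ 1 + (v i).1 * (m - 2) ∧ (l i : ℝ) ≤ 1 + (v i).2 * (m - 2) ∧
      (v i).1 * (m - 2) - 1 ≤ k i ∧ (v i).2 * (m - 2) - 1 ≤ l i := by
    intro i
    have g1 := ev_le (mul_nonneg (hv i).1 hu0)
    have g2 := ev_le (mul_nonneg (hv i).2.1 hu0)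
    have g3 := ev_gt ((v i).1 * (m - 2))
    have g4 := ev_gt ((v i).2 * (m - 2))
    simp only [k, l]
    push_cast
    refine ⟨by linarith, by linarith, by linarith, by linarith⟩
  have hcond : ∀ i, 1 ≤ k i ∧ 1 ≤ l i ∧ 2 ≤ m ∧ (k i + l i) % 2 = m % 2 ∧ k i + l i ≤ m := by
    intro i
    refine ⟨by simp only [k]; omega, by simp only [l]; omega, hm2, ?_, ?_⟩
    · have e1 := ev_even ((v i).1 * (m - 2))
      have e2 := ev_even ((v i).2 * (m - 2))
      simp only [k, l]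
      omega
    · obtain ⟨g1, g2, -, -⟩ := hkl i
      have g3 := (hv i).2.2
      have g4 : ((k i + l i : ℕ) : ℝ) ≤ (m : ℕ) := by
        push_cast
        nlinarith
      exact_mod_cast g4
  obtain ⟨X, D, hX, hD, hXk, ⟨x0, hx0, hx1, hx2⟩, hAr, m', hm', hlow⟩ := hch n hn M hM k l (fun _ => m) hcond
    (by rw [Finset.sum_const, Finset.card_univ, Fintype.card_fin, smul_eq_mul]; exact hmM)
  rw [Finset.sum_const, Finset.card_univ, Fintype.card_fin, smul_eq_mul] at hm'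
  have h2 := hss n (by omega) X D hX hD m' m' (by omega)
  -- the area
  have hprod : ∀ i j, (v i).2 * (v j).1 * (m - 2) ^ 2 - 2 * (m - 2) ≤ (l i : ℝ) * k j := by
    intro i j
    obtain ⟨-, -, -, g1⟩ := hkl i
    obtain ⟨-, -, g2, -⟩ := hkl j
    have g3 : (1 : ℝ) ≤ l i := by exact_mod_cast (hcond i).2.1
    have g4 : (1 : ℝ) ≤ k j := by exact_mod_cast (hcond j).1
    have y1 : (v i).2 ≤ 1 := by linarith [(hv i).1, (hv i).2.2]
    have x1 : (v j).1 ≤ 1 := by linarith [(hv j).2.1, (hv j).2.2]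
    have y0 := (hv i).2.1
    have x0 := (hv j).1
    obtain ⟨u, hu⟩ : ∃ u, u = (m : ℝ) - 2 := ⟨_, rfl⟩
    rw [← hu] at g1 g2 hu0 ⊢
    rcases le_or_gt 1 ((v i).2 * u) with h | h
    · rcases le_or_gt 1 ((v j).1 * u) with h' | h'
      · nlinarith [mul_le_mul g1 g2 (by linarith) (by linarith)]
      · have : (v i).2 * (v j).1 * u ^ 2 ≤ 1 * u := by
          calc (v i).2 * (v j).1 * u ^ 2 = ((v j).1 * u) * ((v i).2 * u) := by ring
            _ ≤ 1 * (1 * u) := by gcongr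
            _ = 1 * u := by ring
        nlinarith
    · have : (v i).2 * (v j).1 * u ^ 2 ≤ 1 * u := by
        calc (v i).2 * (v j).1 * u ^ 2 = ((v i).2 * u) * ((v j).1 * u) := by ring
          _ ≤ 1 * (1 * u) := by gcongr
          _ = 1 * u := by ring
      nlinarith
  obtain ⟨S, hS⟩ : ∃ S, S = ∑ j, ∑ i ∈ univ.filter (· < j), max (l i * k j) (l j * k i) := ⟨_, rfl⟩
  rw [← hS] at hAr
  have hpairs := pair_sum (fun i j => max (l i * k j) (l j * k i)) (fun i j => max_comm _ _)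
  rw [← hS] at hpairs
  have hMf : Mf (fun _ => 1 / (M : ℝ)) v = (1 / 2) * ((1 / (M : ℝ)) ^ 2 *
      ∑ i, ∑ j, max ((v i).1 * (v j).2) ((v j).1 * (v i).2)) := by
    unfold Mf
    congr 1
    rw [Finset.mul_sum]
    refine Finset.sum_congr rfl fun i _ => ?_
    rw [Finset.mul_sum]
    refine Finset.sum_congr rfl fun j _ => ?_
    rw [abs_of_nonneg (hv i).1, abs_of_nonneg (hv i).2.1, abs_of_nonneg (hv j).1,
      abs_of_nonneg (hv j).2.1]
    ring
  obtain ⟨Sg, hSg⟩ : ∃ Sg : ℝ, Sg = ∑ i : Fin M, ∑ j : Fin M,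
      max ((v i).1 * (v j).2) ((v j).1 * (v i).2) := ⟨_, rfl⟩
  rw [← hSg] at hMf
  have hsum1 : ((m : ℝ) - 2) ^ 2 * Sg - 2 * (m - 2) * M ^ 2 ≤
      ((∑ j, ∑ i, max (l i * k j) (l j * k i) : ℕ) : ℝ) := by
    have e1 : ((m : ℝ) - 2) ^ 2 * Sg - 2 * (m - 2) * M ^ 2 =
        ∑ j : Fin M, ∑ i : Fin M, (((m : ℝ) - 2) ^ 2 * max ((v j).1 * (v i).2) ((v i).1 * (v j).2) -
          2 * (m - 2)) := by
      simp only [Finset.sum_sub_distrib, Finset.sum_const, Finset.card_univ, Fintype.card_fin,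
        nsmul_eq_mul, ← Finset.mul_sum]
      rw [hSg]
      ring
    rw [e1]
    push_cast
    refine Finset.sum_le_sum fun j _ => Finset.sum_le_sum fun i _ => ?_
    have p1 := hprod i j
    have p2 := hprod j i
    rcases le_total ((v j).1 * (v i).2) ((v i).1 * (v j).2) with h | h
    · rw [max_eq_right h]
      refine le_trans ?_ (le_max_right _ _)
      linarith
    · rw [max_eq_left h]
      refine le_trans ?_ (le_max_left _ _)
      linarith
  have hdiag : ((∑ i, max (l i * k i) (l i * k i) : ℕ) : ℝ) ≤ M * (m ^ 2 / 4) := by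
    push_cast
    have : ∀ i ∈ (univ : Finset (Fin M)), max ((l i : ℝ) * k i) (l i * k i) ≤ (m : ℝ) ^ 2 / 4 := by
      intro i _
      rw [max_self]
      have h3 : (k i : ℝ) + l i ≤ m := by exact_mod_cast (hcond i).2.2.2.2
      have h4 : (0 : ℝ) ≤ k i := Nat.cast_nonneg _
      have h5 : (0 : ℝ) ≤ l i := Nat.cast_nonneg _
      nlinarith [sq_nonneg ((k i : ℝ) - l i)]
    refine (Finset.sum_le_sum this).trans ?_
    rw [Finset.sum_const, Finset.card_univ, Fintype.card_fin, nsmul_eq_mul]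
  have hquarter := Mf_quarter hM hv
  have hMf0 : 0 ≤ Mf (fun _ => 1 / (M : ℝ)) v 
    := PieceD.Mf_nonneg _ _ (fun _ => by positivity)
  obtain ⟨μf, hμf⟩ : ∃ μf, μf = Mf (fun _ => 1 / (M : ℝ)) v := ⟨_, rfl⟩
  rw [← hμf] at hMf hA hquarter hMf0
  have hSg : Sg = 2 * (M : ℝ) ^ 2 * μf := by
    rw [hMf]
    field_simp
  have hAle : (A : ℝ) ≤ ((4 * S : ℕ) : ℝ) := by
    have g1 : (2 : ℝ) * S + ((∑ i, max (l i * k i) (l i * k i) : ℕ) : ℝ) =
        ((∑ j, ∑ i, max (l i * k j) (l j * k i) : ℕ) : ℝ) := by exact_mod_cast hpairs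
    push_cast at g1 hsum1 hdiag ⊢
    obtain ⟨W, hW⟩ : ∃ W, W = (M : ℝ) * m := ⟨_, rfl⟩
    rw [← hW] at hmMr hmMr'
    have g2 : ((m : ℝ) - 2) ^ 2 * Sg = 2 * (W - 2 * M) ^ 2 * μf := by
      rw [hSg, hW]
      ring
    rw [g2] at hsum1
    have g3 : 2 * ((m : ℝ) - 2) * M ^ 2 ≤ M * n := by
      have : 2 * ((m : ℝ) - 2) * M ^ 2 = 2 * M * (W - 2 * M) := by rw [hW]; ring
      rw [this]
      nlinarith
    have g4 : (M : ℝ) * (m ^ 2 / 4) ≤ n ^ 2 / M / 16 := by
      have : (M : ℝ) * (m ^ 2 / 4) = W ^ 2 / (4 * M) := by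
        rw [hW]
        field_simp
      rw [this, div_div, div_le_div_iff₀ (by positivity) (by positivity)]
      have hW0 : 0 ≤ W := by rw [hW]; positivity
      nlinarith [mul_le_mul hmMr hmMr (by linarith) hn0.le]
    have g5 : (n : ℝ) ^ 2 * μf - 4 * (W - 2 * M) ^ 2 * μf ≤ 4 * M * n := by
      have hW0 : 0 ≤ W - 2 * M := by
        rw [hW]
        nlinarith
      have e1 : (n : ℝ) ^ 2 * μf - 4 * (W - 2 * M) ^ 2 * μf =
          (n - 2 * (W - 2 * M)) * (n + 2 * (W - 2 * M)) * μf := by ring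
      rw [e1]
      have e2 : (n : ℝ) - 2 * (W - 2 * M) ≤ 8 * M := by linarith
      have e3 : (n : ℝ) + 2 * (W - 2 * M) ≤ 2 * n := by linarith
      have e4 : 0 ≤ (n : ℝ) - 2 * (W - 2 * M) := by linarith
      calc (n - 2 * (W - 2 * M)) * (n + 2 * (W - 2 * M)) * μf ≤ (8 * M) * (2 * n) * (1 / 4) := by
            gcongr
        _ = 4 * M * n := by ring
    have g6 : (0 : ℝ) ≤ (n : ℝ) ^ 2 / M := by positivity
    have g7 : (0 : ℝ) ≤ (M : ℝ) * n := by positivity
    nlinarith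
  have hAnat : A ≤ 4 * S := by exact_mod_cast hAle
  have hkX : kk ≤ X - 1 := by
    have g1 : ∀ i, (v i).1 * (m - 2) - 1 ≤ k i := fun i => (hkl i).2.2.1
    have g2 := Finset.sum_le_sum (fun i (_ : i ∈ (univ : Finset (Fin M))) => g1 i)
    rw [Finset.sum_sub_distrib, Finset.sum_const, Finset.card_univ, Fintype.card_fin,
      nsmul_eq_mul, mul_one, ← Finset.sum_mul] at g2
    have g3 : TX (fun _ => 1 / (M : ℝ)) v = (∑ i, (v i).1) / M := by
      unfold TX
      rw [Finset.sum_div]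
      refine Finset.sum_congr rfl fun i _ => ?_
      rw [abs_of_nonneg (hv i).1]
      ring
    have g4 : ∑ i, (v i).1 = M * TX (fun _ => 1 / (M : ℝ)) v := by
      rw [g3]
      field_simp
    have g5 : TX (fun _ => 1 / (M : ℝ)) v ≤ 1 := by
      have h1 := TXY_le (t := fun _ : Fin M => 1 / (M : ℝ)) (v := v) (fun _ => by positivity)
        (by
          rw [Finset.sum_const, Finset.card_univ, Fintype.card_fin, nsmul_eq_mul]
          field_simp) (fun i => by
            rw [abs_of_nonneg (hv i).1, abs_of_nonneg (hv i).2.1]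
            exact (hv i).2.2)
      have h2 := TY_nonneg (t := fun _ : Fin M => 1 / (M : ℝ)) (v := v) (fun _ => by positivity)
      linarith
    have g6 := TX_nonneg (t := fun _ : Fin M => 1 / (M : ℝ)) (v := v) (fun _ => by positivity)
    rw [g4] at g2
    obtain ⟨τ, hτ⟩ : ∃ τ, τ = TX (fun _ => 1 / (M : ℝ)) v := ⟨_, rfl⟩
    rw [← hτ] at hkk g2 g5 g6
    have g7 : (X : ℝ) = 2 * ∑ i, (k i : ℝ) := by
      rw [hXk]
      push_cast
      rfl
    have g8 : (n - 8 * M : ℝ) * τ ≤ 2 * (M * τ * (m - 2)) := by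
      have : (n - 8 * M : ℝ) * τ ≤ (2 * (M * m) - 4 * M) * τ := by
        apply mul_le_mul_of_nonneg_right _ g6
        linarith
      refine this.trans (le_of_eq (by ring))
    have hM1 : (1 : ℝ) ≤ M := by exact_mod_cast hM
    have g9 : (kk : ℝ) ≤ X - 1 := by
      have : (M : ℝ) * τ ≤ M := by
        calc (M : ℝ) * τ ≤ M * 1 := by gcongr
          _ = M := mul_one _
      nlinarith
    have : ((kk : ℤ) : ℝ) ≤ ((X - 1 : ℤ) : ℝ) := by push_cast; exact g9
    exact_mod_cast this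
  have hlD : ll ≤ 2 * D x0 := by
    have g1 : ∀ i, (v i).2 * (m - 2) - 1 ≤ l i := fun i => (hkl i).2.2.2
    have g2 := Finset.sum_le_sum (fun i (_ : i ∈ (univ : Finset (Fin M))) => g1 i)
    rw [Finset.sum_sub_distrib, Finset.sum_const, Finset.card_univ, Fintype.card_fin,
      nsmul_eq_mul, mul_one, ← Finset.sum_mul] at g2
    have g3 : TY (fun _ => 1 / (M : ℝ)) v = (∑ i, (v i).2) / M := by
      unfold TY
      rw [Finset.sum_div]
      refine Finset.sum_congr rfl fun i _ => ?_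
      rw [abs_of_nonneg (hv i).2.1]
      ring
    have g4 : ∑ i, (v i).2 = M * TY (fun _ => 1 / (M : ℝ)) v := by
      rw [g3]
      field_simp
    have g5 : TY (fun _ => 1 / (M : ℝ)) v ≤ 1 := by
      have h1 := TXY_le (t := fun _ : Fin M => 1 / (M : ℝ)) (v := v) (fun _ => by positivity)
        (by
          rw [Finset.sum_const, Finset.card_univ, Fintype.card_fin, nsmul_eq_mul]
          field_simp) (fun i => by
            rw [abs_of_nonneg (hv i).1, abs_of_nonneg (hv i).2.1]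
            exact (hv i).2.2)
      have h2 := TX_nonneg (t := fun _ : Fin M => 1 / (M : ℝ)) (v := v) (fun _ => by positivity)
      linarith
    have g6 := TY_nonneg (t := fun _ : Fin M => 1 / (M : ℝ)) (v := v) (fun _ => by positivity)
    rw [g4] at g2
    obtain ⟨τ, hτ⟩ : ∃ τ, τ = TY (fun _ => 1 / (M : ℝ)) v := ⟨_, rfl⟩
    rw [← hτ] at hll g2 g5 g6
    have g7 := hx2 m (fun i => by have := (hcond i).2.2.2.2; omega)
    have g7' : ((∑ i, (l i : ℤ) : ℤ) : ℝ) ≤ ((D x0 + m : ℤ) : ℝ) := by exact_mod_cast g7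
    push_cast at g7'
    have g8 : (n - 8 * M : ℝ) * τ ≤ 2 * (M * τ * (m - 2)) := by
      have : (n - 8 * M : ℝ) * τ ≤ (2 * (M * m) - 4 * M) * τ := by
        apply mul_le_mul_of_nonneg_right _ g6
        linarith
      refine this.trans (le_of_eq (by ring))
    have g10 : 2 * (m : ℝ) ≤ n / M := by
      rw [le_div_iff₀ hM0]
      linarith
    have hM1 : (1 : ℝ) ≤ M := by exact_mod_cast hM
    have g9 : (ll : ℝ) ≤ 2 * (D x0 : ℝ) := by
      have : (M : ℝ) * τ ≤ M := by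
        calc (M : ℝ) * τ ≤ M * 1 := by gcongr
          _ = M := mul_one _
      nlinarith
    exact_mod_cast g9
  have hAX : (A : ℤ) ≤ ∑ x ∈ Ioo 0 X, 2 * D x := le_trans (by exact_mod_cast hAnat) hAr
  have hmono : rc' X D (2 * n - 1) ≤ an3 n kk ll A :=
    rc_le_an3 (by omega) hX (fun x h h' => (hD x h h').1) hx0 hx1 hkX hlD hAX
  -- the cost
  have hrate : ∀ i, (m : ℝ) * Rate ((k i : ℝ) / m, (l i : ℝ) / m) ≤
      2 * Real.log mu + (n : ℝ) / (2 * M) * Rate (v i) := by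
    intro i
    obtain ⟨g1, g2, -, -⟩ := hkl i
    have hm0 : (0 : ℝ) < m := by linarith
    have hDia : ((v i).1, (v i).2) ∈ {v : ℝ × ℝ | |v.1| + |v.2| ≤ 1} := by
      show |(v i).1| + |(v i).2| ≤ 1
      rw [abs_of_nonneg (hv i).1, abs_of_nonneg (hv i).2.1]
      exact (hv i).2.2
    have hDia2 : ((1 / 2, 1 / 2) : ℝ × ℝ) ∈ {v : ℝ × ℝ | |v.1| + |v.2| ≤ 1} := by
      show |(1 / 2 : ℝ)| + |(1 / 2 : ℝ)| ≤ 1
      norm_num
    have h3 : Rate ((k i : ℝ) / m, (l i : ℝ) / m) ≤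
        Rate ((1 + (v i).1 * (m - 2)) / m, (1 + (v i).2 * (m - 2)) / m) := by
      apply rateFn_mono rateFn
      · positivity
      · gcongr
      · positivity
      · gcongr
      · rw [← add_div, div_le_one hm0]
        have := (hv i).2.2
        nlinarith
    have h4 := rateFn.conv.2 hDia2 hDia (show (0 : ℝ) ≤ 2 / m by positivity)
      (show (0 : ℝ) ≤ (m - 2) / m by positivity) (by field_simp; ring)
    have e1 : (2 / (m : ℝ)) • ((1 / 2, 1 / 2) : ℝ × ℝ) + (((m : ℝ) - 2) / m) • ((v i).1, (v i).2) =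
        ((1 + (v i).1 * (m - 2)) / m, (1 + (v i).2 * (m - 2)) / m) := by
      ext
      · simp only [Prod.fst_add, Prod.smul_fst, smul_eq_mul]
        field_simp
      · simp only [Prod.snd_add, Prod.smul_snd, smul_eq_mul]
        field_simp
    rw [e1, smul_eq_mul, smul_eq_mul] at h4
    have h5 := rateFn.le (1 / 2, 1 / 2) hDia2
    have h6 := rateFn.nonneg (v i) hDia
    have h7 : (m : ℝ) * Rate ((k i : ℝ) / m, (l i : ℝ) / m) ≤
        2 * Rate (1 / 2, 1 / 2) + (m - 2) * Rate ((v i).1, (v i).2) := by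
      calc (m : ℝ) * Rate ((k i : ℝ) / m, (l i : ℝ) / m)
          ≤ m * (2 / m * Rate (1 / 2, 1 / 2) + (m - 2) / m * Rate ((v i).1, (v i).2)) := by
            refine mul_le_mul_of_nonneg_left (h3.trans h4) hm0.le
        _ = _ := by field_simp
    have h8 : ((m : ℝ) - 2) ≤ (n : ℝ) / (2 * M) := by
      rw [le_div_iff₀ (by positivity)]
      nlinarith
    have h9 := mul_le_mul_of_nonneg_right h8 h6
    have h10 : Rate ((v i).1, (v i).2) = Rate (v i) := rfl
    rw [h10] at h7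
    linarith
  have hcost : 4 * ∑ i, (m : ℝ) * Rate ((k i : ℝ) / m, (l i : ℝ) / m) ≤
      8 * M * Real.log mu + 2 * n * ∑ i, (1 / (M : ℝ)) * Rate (v i) := by
    have h3 := Finset.sum_le_sum (fun i (_ : i ∈ (univ : Finset (Fin M))) => hrate i)
    rw [Finset.sum_add_distrib, Finset.sum_const, Finset.card_univ, Fintype.card_fin,
      nsmul_eq_mul, ← Finset.mul_sum, ← Finset.mul_sum] at h3
    rw [← Finset.mul_sum]
    have e1 : 2 * (n : ℝ) * (∑ i, (1 / (M : ℝ)) * Rate (v i)) =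
        4 * ((n : ℝ) / (2 * M) * ∑ i, Rate (v i)) := by
      rw [← Finset.mul_sum]
      field_simp
      ring
    rw [e1]
    linarith
  obtain ⟨B, hB⟩ : ∃ B, B = 2 * ∑ i, (m : ℝ) * Rate ((k i : ℝ) / m, (l i : ℝ) / m) +
    K1 * M * Real.log n ^ 2 := ⟨_, rfl⟩
  rw [← hB] at hlow
  have h4 : mu ^ (2 * n) * Real.exp (-(2 * B)) ≤ q (2 * n) K2 * (an3 n kk ll A : ℝ) := by
    calc mu ^ (2 * n) * Real.exp (-(2 * B))
        = (mu ^ m' * Real.exp (-B)) * (mu ^ m' * Real.exp (-B)) * mu ^ (2 * n - (m' + m')) := by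
          rw [show (mu ^ m' * Real.exp (-B)) * (mu ^ m' * Real.exp (-B)) *
            mu ^ (2 * n - (m' + m')) = (mu ^ m' * mu ^ m' * mu ^ (2 * n - (m' + m'))) *
            (Real.exp (-B) * Real.exp (-B)) by ring, ← pow_add, ← pow_add, ← Real.exp_add]
          congr 2
          · omega
          · ring
      _ ≤ (ss X D m' : ℝ) * ss X D m' * mu ^ (2 * n - (m' + m')) := by
          gcongr
      _ ≤ _ := h2
      _ ≤ _ := by
          refine mul_le_mul_of_nonneg_left ?_ (q_pos _ _).le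
          exact_mod_cast hmono
  have hLpos : 0 < mu ^ (2 * n) * Real.exp (-(2 * B)) := by positivity
  have hanpos : (0 : ℝ) < an3 n kk ll A := by
    by_contra hcon
    have h5 : (an3 n kk ll A : ℝ) ≤ 0 := not_lt.1 hcon
    have h6 := q_pos (2 * n) K2
    nlinarith
  refine ⟨by exact_mod_cast hanpos, ?_⟩
  have h5 := Real.log_le_log hLpos h4
  rw [Real.log_mul (by positivity) (by positivity), Real.log_mul (q_pos _ _).ne' hanpos.ne',
    Real.log_exp, Real.log_pow] at h5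
  have h6 : Real.log (q (2 * n) K2) = K2 * Real.log ((2 * n : ℕ) : ℝ) ^ 2 := by
    unfold q
    rw [Real.log_exp]
  rw [h6] at h5
  have h7 := mul_le_mul_of_nonneg_left (Pool.Agent.K6.H5.JW.logsq_two hn) hK2
  have hl1 := log_sq_ge hn
  have hM1 : (1 : ℝ) ≤ M := by exact_mod_cast hM
  have h8 : K2 * (4 * Real.log n ^ 2) ≤ 4 * K2 * M * Real.log n ^ 2 := by
    have : 0 ≤ K2 * Real.log n ^ 2 := by positivity
    nlinarith
  have h9 : 8 * M * Real.log mu ≤ 32 * Real.log mu * M * Real.log n ^ 2 := by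
    have : 0 ≤ (M : ℝ) * Real.log mu := by positivity
    nlinarith
  push_cast at h5 h7 ⊢
  rw [hB] at h5
  nlinarith

end Pool.Agent.K6.H5.WHA
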