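import Pool.Agent.K6.H23.WA.PieceP4
import Pool.Agent.K6.H23.WA.AsmT
import Pool.Agent.K6.H5.WHA.SS

/-!
The upper bound for the number of polygons with large width, height and area.
-/

set_option autoImplicit false

namespace Pool.Agent.K6.H5.WHA

open Pool.Agent.TH795.EP Pool.Agent.TH795.EP2 Pool.Agent.TH795.SE2 Pool.Agent.TH262.SawL H981 Finset
open Pool.Agent.Y981.L2 (Rate ln Wd)
open Pool.Agent.K6.H5.JW (ps Ht)
open Pool.Agent.K6.H23.WA
open Pool.Agent.K6.H23.WA.P4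

variable {n N M : ℕ}

/-- telescoping along the sampling times -/
theorem tele_abs (g : ℕ → ℤ) {i j : ℕ} (h : i ≤ j) :
    |g j - g i| ≤ ∑ k ∈ Ico i j, |g (k + 1) - g k| := by
  induction j, h using Nat.le_induction with
  | base => simp
  | succ j hij ih =>
    rw [Finset.sum_Ico_succ_top hij]
    have e : g (j + 1) - g i = (g (j + 1) - g j) + (g j - g i) := by ring
    rw [e]
    have := abs_add_le (g (j + 1) - g j) (g j - g i)
    linarith

/-- the variation of a closed sequence is at least twice each difference -/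
theorem closed_var (g : ℕ → ℤ) {L : ℕ} (hper : g L = g 0) {i j : ℕ} (hi : i ≤ L) (hj : j ≤ L) :
    2 * |g j - g i| ≤ ∑ k ∈ range L, |g (k + 1) - g k| := by
  have key : ∀ i j, i ≤ j → j ≤ L → 2 * |g j - g i| ≤ ∑ k ∈ range L, |g (k + 1) - g k| := by
    intro i j hij hj
    have h1 := tele_abs g (Nat.zero_le i)
    have h2 := tele_abs g hij
    have h3 := tele_abs g hj
    have h4 : |g j - g i| ≤ |g i - g 0| + |g L - g j| := by
      have e : g j - g i = -((g i - g 0) + (g L - g j)) := by rw [hper]; ring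
      rw [e, abs_neg]
      exact abs_add_le _ _
    have h5 : ∑ k ∈ range L, |g (k + 1) - g k| = ∑ k ∈ Ico 0 i, |g (k + 1) - g k| +
        ∑ k ∈ Ico i j, |g (k + 1) - g k| + ∑ k ∈ Ico j L, |g (k + 1) - g k| := by
      rw [Finset.sum_Ico_consecutive _ (Nat.zero_le i) hij,
        Finset.sum_Ico_consecutive _ (Nat.zero_le j) hj, Finset.range_eq_Ico]
    rw [h5]
    linarith
  rcases le_total i j with h | h
  · exact key i j h hj
  · rw [abs_sub_comm]
    exact key j i h hi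

/-- each time of the loop is close to a sampling time -/
theorem near_sample (h : Par n N M) (p : ZMod (2 * n)) :
    ∃ i ≤ M, Tm n N M i ≤ p.val ∧ p.val ≤ Tm n N M i + 2 * N := by
  have h2 := h.hN
  have h3 := h.hNn
  have : NeZero (2 * n) := ⟨by omega⟩
  have hp := ZMod.val_lt p
  have hT0 : Tm n N M 0 = 0 := by rw [Tm_small (Nat.zero_le _), cut_zero h]
  have key : ∀ L, p.val < Tm n N M L → ∃ i < L, Tm n N M i ≤ p.val ∧ p.val ≤ Tm n N M i + 2 * N := by
    intro L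
    induction L with
    | zero => intro h0; rw [hT0] at h0; omega
    | succ L ih =>
      intro hL
      by_cases hc : p.val < Tm n N M L
      · obtain ⟨i, hi, g⟩ := ih hc
        exact ⟨i, by omega, g⟩
      · refine ⟨L, by omega, by omega, ?_⟩
        have := (Tm_step h L).2
        omega
  obtain ⟨i, hi, g⟩ := key (M + 1) (by rw [Tm_last h]; exact hp)
  exact ⟨i, by omega, g⟩

theorem near_pt (h : Par n N M) {V : List St} (hs : NN (2 * n) (lp n V)) (p : ZMod (2 * n)) :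
    ∃ i ≤ M, |(lp n V p).1 - (lp n V ((Tm n N M i : ℕ) : ZMod (2 * n))).1| ≤ 2 * N ∧
      |(lp n V p).2 - (lp n V ((Tm n N M i : ℕ) : ZMod (2 * n))).2| ≤ 2 * N := by
  have h2 := h.hN
  have h3 := h.hNn
  have : NeZero (2 * n) := ⟨by omega⟩
  obtain ⟨i, hi, g1, g2⟩ := near_sample h p
  refine ⟨i, hi, ?_⟩
  obtain ⟨l1, l2⟩ := PA.lip hs (Tm n N M i) (p.val - Tm n N M i)
  have e : ((Tm n N M i + (p.val - Tm n N M i) : ℕ) : ZMod (2 * n)) = p := by
    rw [Nat.add_sub_cancel' g1, ZMod.natCast_zmod_val]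
  rw [e] at l1 l2
  have h4 : ((p.val - Tm n N M i : ℕ) : ℤ) ≤ 2 * N := by omega
  exact ⟨l1.trans h4, l2.trans h4⟩

theorem TX_ge (h : Par n N M) {V : List St} (hs : NN (2 * n) (lp n V)) {k : ℤ}
    (hk : Wd k (lp n V)) :
    ((k : ℝ) - 4 * N) / n ≤ TX (fun i : Fin (M + 1) => tt n N M i) (fun i => vv n N M V i) := by
  have h2 := h.hN
  have h3 := h.hNn
  have h4 : (0 : ℝ) < n := by exact_mod_cast (by omega : 0 < n)
  have : NeZero (2 * n) := ⟨by omega⟩
  obtain ⟨p, p', hpp⟩ := hk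
  obtain ⟨i, hi, g1, -⟩ := near_pt h hs p
  obtain ⟨j, hj, g2, -⟩ := near_pt h hs p'
  set g : ℕ → ℤ := fun i => (lp n V ((Tm n N M i : ℕ) : ZMod (2 * n))).1 with hg
  have hper : g (M + 1) = g 0 := by
    simp only [hg]
    rw [Tm_last h, Tm_small (Nat.zero_le _), cut_zero h]
    simp
  have hv := closed_var g hper (show j ≤ M + 1 by omega) (show i ≤ M + 1 by omega)
  have e1 : TX (fun i : Fin (M + 1) => tt n N M i) (fun i => vv n N M V i) =
      ((∑ k ∈ range (M + 1), |g (k + 1) - g k| : ℤ) : ℝ) / (2 * n) := by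
    unfold TX
    push_cast
    rw [Finset.sum_range, Finset.sum_div]
    refine Finset.sum_congr rfl fun i _ => ?_
    have h5 := len_pos h (i : ℕ)
    have h7 : (0 : ℝ) < len n N M i := by linarith
    unfold P4.vv tt
    simp only
    rw [abs_div, abs_of_pos h7]
    have e2 : (Dp n N M V i).1 = g (i + 1) - g i := rfl
    rw [e2]
    push_cast
    field_simp
  rw [e1, div_le_div_iff₀ h4 (by positivity)]
  have h5 : k - 4 * N ≤ |g i - g j| := by
    have h6 := le_abs_self (g i - g j)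
    have h7 := abs_le.1 g1
    have h8 := abs_le.1 g2
    simp only [hg] at h6 ⊢
    linarith [h7.2, h8.1]
  have h6 : ((2 * (k - 4 * N) : ℤ) : ℝ) ≤ ((∑ k ∈ range (M + 1), |g (k + 1) - g k| : ℤ) : ℝ) := by
    exact_mod_cast (by linarith : 2 * (k - 4 * N) ≤ ∑ k ∈ range (M + 1), |g (k + 1) - g k|)
  push_cast at h6 ⊢
  nlinarith

theorem TY_ge (h : Par n N M) {V : List St} (hs : NN (2 * n) (lp n V)) {k : ℤ}
    (hk : Ht k (lp n V)) :
    ((k : ℝ) - 4 * N) / n ≤ TY (fun i : Fin (M + 1) => tt n N M i) (fun i => vv n N M V i) := by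
  have h2 := h.hN
  have h3 := h.hNn
  have h4 : (0 : ℝ) < n := by exact_mod_cast (by omega : 0 < n)
  have : NeZero (2 * n) := ⟨by omega⟩
  obtain ⟨p, p', hpp⟩ := hk
  obtain ⟨i, hi, -, g1⟩ := near_pt h hs p
  obtain ⟨j, hj, -, g2⟩ := near_pt h hs p'
  set g : ℕ → ℤ := fun i => (lp n V ((Tm n N M i : ℕ) : ZMod (2 * n))).2 with hg
  have hper : g (M + 1) = g 0 := by
    simp only [hg]
    rw [Tm_last h, Tm_small (Nat.zero_le _), cut_zero h]
    simp
  have hv := closed_var g hper (show j ≤ M + 1 by omega) (show i ≤ M + 1 by omega)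
  have e1 : TY (fun i : Fin (M + 1) => tt n N M i) (fun i => vv n N M V i) =
      ((∑ k ∈ range (M + 1), |g (k + 1) - g k| : ℤ) : ℝ) / (2 * n) := by
    unfold TY
    push_cast
    rw [Finset.sum_range, Finset.sum_div]
    refine Finset.sum_congr rfl fun i _ => ?_
    have h5 := len_pos h (i : ℕ)
    have h7 : (0 : ℝ) < len n N M i := by linarith
    unfold P4.vv tt
    simp only
    rw [abs_div, abs_of_pos h7]
    have e2 : (Dp n N M V i).2 = g (i + 1) - g i := rfl
    rw [e2]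
    push_cast
    field_simp
  rw [e1, div_le_div_iff₀ h4 (by positivity)]
  have h5 : k - 4 * N ≤ |g i - g j| := by
    have h6 := le_abs_self (g i - g j)
    have h7 := abs_le.1 g1
    have h8 := abs_le.1 g2
    simp only [hg] at h6 ⊢
    linarith [h7.2, h8.1]
  have h6 : ((2 * (k - 4 * N) : ℤ) : ℝ) ≤ ((∑ k ∈ range (M + 1), |g (k + 1) - g k| : ℤ) : ℝ) := by
    exact_mod_cast (by linarith : 2 * (k - 4 * N) ≤ ∑ k ∈ range (M + 1), |g (k + 1) - g k|)
  push_cast at h6 ⊢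
  nlinarith

theorem J3_le_loop (h : Par n N M) {V : List St} (hs : NN (2 * n) (lp n V)) {k l : ℤ} {A : ℕ}
    (hk : Wd k (lp n V)) (hl : Ht l (lp n V)) (hA : A ≤ area (2 * n) (lp n V)) :
    Feas (((k : ℝ) - 4 * N) / n) (((l : ℝ) - 4 * N) / n) ((A - 240 * N * n) / (n : ℝ) ^ 2) ∧
    J3 Rate (((k : ℝ) - 4 * N) / n) (((l : ℝ) - 4 * N) / n) ((A - 240 * N * n) / (n : ℝ) ^ 2) ≤
      ∑ i ∈ range (M + 1), tt n N M i * Rate (vv n N M V i) := by
  have h2 := h.hN
  have h3 := h.hNn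
  have h4 : (0 : ℝ) < n := by exact_mod_cast (by omega : 0 < n)
  have : NeZero (2 * n) := ⟨by omega⟩
  have ht0 : ∀ i : Fin (M + 1), 0 ≤ tt n N M i := by
    intro i
    unfold tt
    have := len_pos h (i : ℕ)
    positivity
  have ht1 : ∑ i : Fin (M + 1), tt n N M i = 1 := by
    rw [← sum_tt h, Finset.sum_range]
  have hv : ∀ i : Fin (M + 1), |(vv n N M V i).1| + |(vv n N M V i).2| ≤ 1 :=
    fun i => vv_dia h hs i
  have h5 := area_le_sum hs (M := M + 1) (r := 2 * N) (by omega) (by omega) (samp h)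
  rw [← Mf_eq h V] at h5
  have h6 : (A : ℝ) ≤ Mf (fun i : Fin (M + 1) => tt n N M i)
      (fun i : Fin (M + 1) => vv n N M V i) * (n : ℝ) ^ 2 + 240 * N * n := by
    have h7 : (A : ℝ) ≤ area (2 * n) (lp n V) := by exact_mod_cast hA
    push_cast at h5
    linarith
  have g1 := TX_ge h hs hk
  have g2 := TY_ge h hs hl
  have g3 : (A - 240 * N * n) / (n : ℝ) ^ 2 ≤ Mf (fun i : Fin (M + 1) => tt n N M i)
      (fun i : Fin (M + 1) => vv n N M V i) := by
    rw [div_le_iff₀ (by positivity)]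
    linarith
  constructor
  · exact feas_of_nonempty (I := Rate) ⟨_, M + 1, fun i => tt n N M i, fun i => vv n N M V i, ht0,
      ht1, hv, g1, g2, g3, rfl⟩
  · have := J3_le rateFn ht0 ht1 hv g1 g2 g3
    rwa [Finset.sum_range]

/-- the upper bound -/
theorem an3_upper : ∃ K : ℝ, 0 ≤ K ∧ ∀ n : ℕ, 2 ≤ n → ∀ N : ℕ, 2 ≤ N → N ≤ n →
    ∀ (kk ll : ℤ) (A : ℕ), 0 < an3 n kk ll A →
    Feas (((kk : ℝ) - 4 * N) / n) (((ll : ℝ) - 4 * N) / n) ((A - 240 * N * n) / (n : ℝ) ^ 2) ∧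
    Real.log (an3 n kk ll A) ≤ 2 * n * Real.log mu -
      2 * n * J3 Rate (((kk : ℝ) - 4 * N) / n) (((ll : ℝ) - 4 * N) / n)
        ((A - 240 * N * n) / (n : ℝ) ^ 2) + K * ((n : ℝ) / N + 1) * Real.log n ^ 2 := by
  classical
  obtain ⟨K1, hK1, hlaw⟩ := Pool.Agent.K6.H5.JW.a_law
  refine ⟨8 * K1 + 64, by positivity, ?_⟩
  intro n hn N hN hNn kk ll A hA
  have h := P4.exists_par hN hNn
  set M := (2 * n - 1) / N with hM
  have hnz : NeZero (2 * n) := ⟨by omega⟩
  set S := fs (fun V => Saw V ∧ |dx V| + |dy V| = 1 ∧ Wd kk (P4.lp n V) ∧ Ht ll (P4.lp n V) ∧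
    A ≤ area (2 * n) (P4.lp n V)) (2 * n - 1) with hS
  have hSmem : ∀ V ∈ S, Saw V ∧ V.length = 2 * n - 1 ∧ NN (2 * n) (P4.lp n V) ∧
      (Wd kk (P4.lp n V) ∧ Ht ll (P4.lp n V) ∧ A ≤ area (2 * n) (P4.lp n V)) := by
    intro V hV
    rw [hS, mem_fs] at hV
    obtain ⟨⟨h1, h2, h3⟩, h4⟩ := hV
    exact ⟨h1, h4, (Pool.Agent.Y981.L2.loop_close (M := 2 * n) (by omega) (by omega) h1 h2).2.2, h3⟩
  have hanS : an3 n kk ll A ≤ S.card := by
    have hsub : {f : ZMod (2 * n) → ℤ × ℤ | IsLoop (2 * n) f ∧ Wd kk f ∧ Ht ll f ∧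
        A ≤ Pool.Agent.Y981.L2.area (2 * n) f} ⊆
        ((S.image (P4.lp n) : Finset (ZMod (2 * n) → ℤ × ℤ)) : Set (ZMod (2 * n) → ℤ × ℤ)) := by
      rintro f ⟨hf, hA'⟩
      obtain ⟨w, hw, hwl, hp⟩ := Pool.Agent.Y981.L2.loop_word (by omega) hf 0
      have hp' : ∀ i : ZMod (2 * n), path w i.val = f i := by
        intro i
        rw [hp _ (ZMod.val_lt i), ZMod.natCast_zmod_val, zero_add, hf.1]
        simp
      have hlp : P4.lp n w = f := funext hp'
      rw [Finset.mem_coe, Finset.mem_image]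
      refine ⟨w, ?_, hlp⟩
      rw [hS, mem_fs]
      refine ⟨⟨hw, ?_, ?_⟩, hwl⟩
      · have h3 := hf.2.2 (((2 * n - 1 : ℕ) : ZMod (2 * n)))
        have e1 : ((2 * n - 1 : ℕ) : ZMod (2 * n)) + 1 = 0 := by
          have h4 : ((2 * n - 1 + 1 : ℕ) : ZMod (2 * n)) = 0 := by
            rw [show 2 * n - 1 + 1 = 2 * n by omega]
            exact ZMod.natCast_self _
          push_cast at h4
          exact h4
        rw [e1, hf.1] at h3
        have h5 := hp' ((2 * n - 1 : ℕ) : ZMod (2 * n))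
        rw [ZMod.val_cast_of_lt (by omega), ← hwl, path_len] at h5
        rw [← hwl, ← h5] at h3
        simp only [Prod.fst_zero, Prod.snd_zero, zero_sub, abs_neg] at h3
        exact h3
      · rw [hlp]
        exact hA'
    unfold an3
    refine (Set.ncard_le_ncard hsub (Set.toFinite _)).trans ?_
    rw [Set.ncard_coe_finset]
    exact Finset.card_image_le
  have hSpos : 0 < S.card := lt_of_lt_of_le hA hanS
  obtain ⟨V₁, hV₁⟩ := Finset.card_pos.1 hSpos
  obtain ⟨-, -, hNN₁, hA₁⟩ := hSmem V₁ hV₁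
  refine ⟨(J3_le_loop h hNN₁ hA₁.1 hA₁.2.1 hA₁.2.2).1, ?_⟩
  set E : ℝ := 2 * n * Real.log mu - 2 * n * J3 Rate (((kk : ℝ) - 4 * N) / n)
    (((ll : ℝ) - 4 * N) / n) ((A - 240 * N * n) / (n : ℝ) ^ 2) +
    4 * K1 * M * Real.log n ^ 2 with hE
  let g : List St → Fin M → ℤ × ℤ := fun V i =>
    path V (P4.cut n N M (i + 1)) - path V (P4.cut n N M i)
  set I := Finset.Icc (-(2 * n : ℤ)) (2 * n) with hI
  set T : Finset (Fin M → ℤ × ℤ) := Fintype.piFinset (fun _ : Fin M => I ×ˢ I) with hT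
  have hmaps : ∀ V ∈ S, g V ∈ T := by
    intro V hV
    obtain ⟨h1, h2, -, -⟩ := hSmem V hV
    rw [hT, Fintype.mem_piFinset]
    intro i
    have hpl := P4.pc_length h h2 i.2
    have hpx := P4.pc_dx h V i.2
    have hpy := P4.pc_dy h V i.2
    have habs := abs_add_abs_le (P4.pc n N M V i)
    have hcl := P4.cut_le h (by omega : (i : ℕ) + 1 ≤ M)
    have h3 := abs_nonneg (dx (P4.pc n N M V i))
    have h4 := abs_nonneg (dy (P4.pc n N M V i))
    have h5 : |dx (P4.pc n N M V i)| ≤ 2 * n := by omega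
    have h6 : |dy (P4.pc n N M V i)| ≤ 2 * n := by omega
    rw [Finset.mem_product, hI, Finset.mem_Icc, Finset.mem_Icc]
    have e1 : (g V i).1 = dx (P4.pc n N M V i) := hpx.symm
    have e2 : (g V i).2 = dy (P4.pc n N M V i) := hpy.symm
    rw [e1, e2]
    rw [abs_le] at h5 h6
    exact ⟨h5, h6⟩
  have hTcard : T.card = ((4 * n + 1) ^ 2) ^ M := by
    rw [hT, Fintype.card_piFinset]
    simp only [Finset.card_product, Finset.prod_const, Finset.card_univ, Fintype.card_fin]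
    rw [hI, Int.card_Icc]
    have : (2 * (n : ℤ) + 1 - -(2 * (n : ℤ))).toNat = 4 * n + 1 := by omega
    rw [this, sq]
  have hfib : ∀ b ∈ T, (S.filter fun V => g V = b).card ≤ ⌊Real.exp E⌋₊ := by
    intro b _
    rcases Finset.eq_empty_or_nonempty (S.filter fun V => g V = b) with he | ⟨V₀, hV₀⟩
    · rw [he, Finset.card_empty]; exact Nat.zero_le _
    · rw [Finset.mem_filter] at hV₀
      obtain ⟨hV₀S, hb⟩ := hV₀
      obtain ⟨h1, h2, h3, h4⟩ := hSmem V₀ hV₀S
      have h5 := P4.card_pieces h (S.filter fun V => g V = b) b (fun V hV => by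
        rw [Finset.mem_filter] at hV
        obtain ⟨g1, g2, -, -⟩ := hSmem V hV.1
        exact ⟨g1, g2, fun i => congrFun hV.2 i⟩)
      have h6 := P4.prod_le hK1 hlaw h h1 h2 h3
      have h7 := (J3_le_loop h h3 h4.1 h4.2.1 h4.2.2).2
      apply Nat.le_floor
      subst hb
      have h8 : (((S.filter fun V => g V = g V₀).card : ℕ) : ℝ) ≤
          ((∏ i : Fin M, a (P4.cut n N M (i + 1) - P4.cut n N M i) (g V₀ i).1 (g V₀ i).2 : ℕ) :
            ℝ) := Nat.cast_le.2 h5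
      refine (h8.trans h6).trans (Real.exp_le_exp.2 ?_)
      rw [hE]
      have hn0 : (0 : ℝ) ≤ 2 * n := by positivity
      have h9 := mul_le_mul_of_nonneg_left h7 hn0
      linarith
  have hcard : S.card ≤ ⌊Real.exp E⌋₊ * T.card :=
    Finset.card_le_mul_card_image_of_maps_to hmaps _ hfib
  have han0 : (0 : ℝ) < an3 n kk ll A := by exact_mod_cast hA
  have h10 : (an3 n kk ll A : ℝ) ≤ Real.exp E * ((4 * n + 1 : ℝ) ^ 2) ^ M := by
    have h11 : (an3 n kk ll A : ℝ) ≤ (⌊Real.exp E⌋₊ : ℝ) * T.card := by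
      exact_mod_cast hanS.trans hcard
    refine h11.trans ?_
    rw [hTcard]
    push_cast
    exact mul_le_mul_of_nonneg_right (Nat.floor_le (Real.exp_pos _).le) (by positivity)
  have h12 : Real.log (an3 n kk ll A) ≤ E + M * (2 * Real.log (4 * n + 1)) := by
    have h13 := Real.log_le_log han0 h10
    rw [Real.log_mul (Real.exp_pos _).ne' (by positivity), Real.log_exp, Real.log_pow,
      Real.log_pow] at h13
    push_cast at h13
    exact h13
  have hn0 : (0 : ℝ) < n := by exact_mod_cast (by omega : 0 < n)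
  have hN0 : (0 : ℝ) < N := by exact_mod_cast (by omega : 0 < N)
  have hlog2 : Real.log 2 ≤ Real.log n :=
    Real.log_le_log (by norm_num) (by exact_mod_cast hn)
  have hl2 : 1 / 2 < Real.log 2 := by
    have := Real.log_two_gt_d9
    linarith
  have h14 : Real.log (4 * n + 1) ≤ 8 * Real.log n ^ 2 := by
    have h15 : (4 * (n : ℝ) + 1) ≤ (n : ℝ) ^ 4 := by
      have hn2 : (2 : ℝ) ≤ n := by exact_mod_cast hn
      have h16 : (8 : ℝ) ≤ (n : ℝ) ^ 3 := by
        have := pow_le_pow_left₀ (by norm_num : (0 : ℝ) ≤ 2) hn2 3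
        linarith
      nlinarith
    have h16 := Real.log_le_log (by positivity) h15
    rw [Real.log_pow] at h16
    push_cast at h16
    nlinarith
  have hMle : (M : ℝ) ≤ 2 * (n / N) := by
    have h17 : (M : ℝ) * N ≤ 2 * n := by
      have : M * N ≤ 2 * n := h.h1.trans (Nat.sub_le _ _)
      exact_mod_cast this
    rw [← le_div_iff₀ hN0] at h17
    rw [← mul_div_assoc]
    exact h17
  have hM0 : (0 : ℝ) ≤ M := Nat.cast_nonneg _
  have hL : 0 ≤ Real.log n ^ 2 := sq_nonneg _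
  have h18 : (M : ℝ) * (2 * Real.log (4 * n + 1)) ≤ 16 * M * Real.log n ^ 2 := by
    have := mul_le_mul_of_nonneg_left h14 hM0
    linarith
  have h19 : (4 * K1 + 16) * (M * Real.log n ^ 2) ≤
      (4 * K1 + 16) * (2 * ((n : ℝ) / N) * Real.log n ^ 2) := by
    refine mul_le_mul_of_nonneg_left ?_ (by positivity)
    exact mul_le_mul_of_nonneg_right hMle hL
  have h20 : (0 : ℝ) ≤ (n : ℝ) / N := by positivity
  have h21 : (4 * K1 + 16) * (2 * ((n : ℝ) / N) * Real.log n ^ 2) ≤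
      (8 * K1 + 64) * ((n : ℝ) / N + 1) * Real.log n ^ 2 := by
    have h22 : (4 * K1 + 16) * (2 * ((n : ℝ) / N)) ≤ (8 * K1 + 64) * ((n : ℝ) / N + 1) := by
      nlinarith [mul_nonneg hK1 h20]
    have := mul_le_mul_of_nonneg_right h22 hL
    linarith
  rw [hE] at h12
  linarith


end Pool.Agent.K6.H5.WHA
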