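import Pool.Agent.K6.H5.WHA.Conv
import Pool.Agent.K6.H5.WHA.Low
import Pool.Agent.K6.H5.WHA.Up
import Pool.Agent.K6.H23.WA.MainT

/-!
The joint law of width, height and area of self-avoiding polygons.
-/

set_option autoImplicit false

namespace Pool.Agent.K6.H5.WHA

open Pool.Agent.TH795.EP Pool.Agent.TH795.EP2 Pool.Agent.TH795.SE2 Pool.Agent.TH262.SawL H981 Finset
open Pool.Agent.Y981.L2 (Rate ln Wd width swp)
open Pool.Agent.K6.H5.JW (ps Ht)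
open Pool.Agent.K6.H23.WA
open Filter Topology

theorem lower_J3 : ∃ K : ℝ, 0 ≤ K ∧ ∀ n : ℕ, 2 ≤ n → ∀ M : ℕ, 1 ≤ M → 16 * M ^ 2 ≤ n →
    ∀ (kk ll : ℤ) (A : ℕ) (x y a : ℝ), (kk : ℝ) ≤ x * n + 1 → (ll : ℝ) ≤ y * n + 1 →
    (A : ℝ) ≤ a * n ^ 2 + 1 → Feas (x + 4 / M) (y + 4 / M) (a + 4 / M) →
    0 < an3 n kk ll A ∧ 2 * n * Real.log mu -
      (2 * n * J3 Rate (x + 4 / M) (y + 4 / M) (a + 4 / M) + K * M * Real.log n ^ 2) ≤
      Real.log (an3 n kk ll A) := by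
  obtain ⟨K, hK, h⟩ := lower_unif3
  refine ⟨K + 1, by positivity, ?_⟩
  intro n hn M hM hMn kk ll A x y a hkk hll hA hf
  have hn0 : (0 : ℝ) < n := by exact_mod_cast (by omega : 0 < n)
  have hM0 : (0 : ℝ) < M := by exact_mod_cast hM
  have hM1 : (1 : ℝ) ≤ M := by exact_mod_cast hM
  have hMr : 16 * (M : ℝ) ^ 2 ≤ n := by exact_mod_cast hMn
  have hl : 0 < Real.log (n : ℝ) ^ 2 := by
    have : 0 < Real.log (n : ℝ) := Real.log_pos (by exact_mod_cast hn)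
    positivity
  obtain ⟨m, t, v0, ht, ht1, hv0, h1, h2, h3, h4⟩ := exists_family (I := Rate) hf
    (ε := M * Real.log n ^ 2 / (2 * n)) (by positivity)
  obtain ⟨v, hv, g1, g2, g3, g4⟩ := equal_times_fam rateFn hM ht ht1 hv0
  have hnM : 16 * (M : ℝ) ≤ n / M := by
    rw [le_div_iff₀ hM0]
    nlinarith
  have hn2M : 16 * (M : ℝ) * n ≤ n ^ 2 / M := by
    rw [le_div_iff₀ hM0]
    nlinarith
  have hn1 : (1 : ℝ) ≤ n := by nlinarith
  have hM2 : 4 * M ≤ n := by nlinarith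
  obtain ⟨f1, f2⟩ := h n hn M hM v hv hM2 kk ll A (by
      rw [g2]
      have e1 : (n : ℝ) * (x + 4 / M) = x * n + 4 * (n / M) := by ring
      have e2 := mul_le_mul_of_nonneg_left h1 hn0.le
      linarith) (by
      rw [g3]
      have e1 : (n : ℝ) * (y + 4 / M) = y * n + 4 * (n / M) := by ring
      have e2 := mul_le_mul_of_nonneg_left h2 hn0.le
      linarith) (by
      have e1 : (n : ℝ) ^ 2 * (a + 4 / M - 2 / M) = a * n ^ 2 + 2 * (n ^ 2 / M) := by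
        field_simp
        ring
      have e2 := mul_le_mul_of_nonneg_left (sub_le_sub_right h3 (2 / (M : ℝ)))
        (show (0 : ℝ) ≤ (n : ℝ) ^ 2 by positivity)
      have e3 := mul_le_mul_of_nonneg_left g1 (show (0 : ℝ) ≤ (n : ℝ) ^ 2 by positivity)
      have e4 : 1 ≤ (M : ℝ) * n := by nlinarith
      linarith)
  refine ⟨f1, ?_⟩
  have h5 := mul_le_mul_of_nonneg_left (g4.trans h4) (show (0 : ℝ) ≤ 2 * n by positivity)
  have e1 : 2 * (n : ℝ) * (J3 Rate (x + 4 / M) (y + 4 / M) (a + 4 / M) +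
      M * Real.log n ^ 2 / (2 * n)) =
      2 * n * J3 Rate (x + 4 / M) (y + 4 / M) (a + 4 / M) + M * Real.log n ^ 2 := by
    field_simp
  rw [e1] at h5
  linarith

theorem upper_J3 : ∃ K C : ℝ, 0 ≤ K ∧ 0 ≤ C ∧ ∀ n : ℕ, 2 ≤ n → ∀ M : ℕ, 1 ≤ M → 16 * M ^ 2 ≤ n →
    ∀ (kk ll : ℤ) (A : ℕ) (x y a : ℝ), x * n ≤ kk → y * n ≤ ll →
    a * n ^ 2 ≤ A → 0 < an3 n kk ll A →
    Feas (x - C / M) (y - C / M) (a - C / M) ∧
      Real.log (an3 n kk ll A) ≤ 2 * n * Real.log mu -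
        2 * n * J3 Rate (x - C / M) (y - C / M) (a - C / M) + K * M * Real.log n ^ 2 := by
  obtain ⟨K, hK, hup⟩ := an3_upper
  refine ⟨2 * K, 480, by positivity, by norm_num, ?_⟩
  intro n hn M hM hMn kk ll A x y a hkk hll hA' hA
  have hn0 : (0 : ℝ) < n := by exact_mod_cast (by omega : 0 < n)
  have hM0 : (0 : ℝ) < M := by exact_mod_cast hM
  have hMr : 16 * (M : ℝ) ^ 2 ≤ n := by exact_mod_cast hMn
  have hM1 : (1 : ℝ) ≤ M := by exact_mod_cast hM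
  have hMnr : 2 * (M : ℝ) ≤ n := by nlinarith
  obtain ⟨N, hN⟩ : ∃ N : ℕ, N = ⌈(n : ℝ) / M⌉₊ := ⟨_, rfl⟩
  have hq : (0 : ℝ) ≤ (n : ℝ) / M := by positivity
  have hN1 : (n : ℝ) / M ≤ N := by rw [hN]; exact Nat.le_ceil _
  have hN2 : (N : ℝ) < n / M + 1 := by rw [hN]; exact Nat.ceil_lt_add_one hq
  have hN3 : 2 ≤ N := by
    have : (2 : ℝ) ≤ N := by
      refine le_trans ?_ hN1
      rw [le_div_iff₀ hM0]
      exact hMnr
    exact_mod_cast this
  have hN4 : N ≤ n := by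
    rw [hN, Nat.ceil_le]
    exact div_le_self hn0.le hM1
  obtain ⟨hF, hB⟩ := hup n hn N hN3 hN4 kk ll A hA
  have hN0 : (0 : ℝ) < N := by exact_mod_cast (by omega : 0 < N)
  have hNM : (N : ℝ) ≤ 2 * (n / M) := by
    have h4 : 1 ≤ (n : ℝ) / M := by
      rw [le_div_iff₀ hM0]
      linarith
    linarith
  have hx : x - 480 / M ≤ ((kk : ℝ) - 4 * N) / n := by
    rw [le_div_iff₀ hn0]
    have e1 : (x - 480 / M) * n = x * n - 480 * (n / M) := by ring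
    linarith
  have hy : y - 480 / M ≤ ((ll : ℝ) - 4 * N) / n := by
    rw [le_div_iff₀ hn0]
    have e1 : (y - 480 / M) * n = y * n - 480 * (n / M) := by ring
    linarith
  have ha : a - 480 / M ≤ ((A : ℝ) - 240 * N * n) / (n : ℝ) ^ 2 := by
    rw [le_div_iff₀ (by positivity)]
    have e1 : (a - 480 / M) * (n : ℝ) ^ 2 = a * n ^ 2 - 240 * (2 * (n / M)) * n := by
      field_simp
      ring
    have e2 : 240 * (N : ℝ) * n ≤ 240 * (2 * (n / M)) * n := by gcongr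
    linarith
  have hmono := J3_mono rateFn hx hy ha hF
  refine ⟨hF.mono hx hy ha, ?_⟩
  have herr : K * ((n : ℝ) / N + 1) * Real.log n ^ 2 ≤ 2 * K * M * Real.log n ^ 2 := by
    have h3 : (n : ℝ) / N ≤ M := by
      rw [div_le_iff₀ hN0]
      rw [div_le_iff₀ hM0] at hN1
      linarith
    have h4 : (n : ℝ) / N + 1 ≤ 2 * M := by linarith
    calc K * ((n : ℝ) / N + 1) * Real.log n ^ 2 ≤ K * (2 * M) * Real.log n ^ 2 := by gcongr
      _ = _ := by ring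
  have := mul_le_mul_of_nonneg_left hmono (show (0 : ℝ) ≤ 2 * n by positivity)
  linarith

/-- the height -/
noncomputable def height (m : ℕ) (f : ZMod m → ℤ × ℤ) : ℕ :=
  sSup {w : ℕ | ∃ i j, w = ((f i).2 - (f j).2).natAbs}

/-- the proportion of the polygons with width, height and area at least `x`, `y`, `r` -/
noncomputable def pr3 (n : ℕ) (x y r : ℝ) : ℝ :=
  ({f : ZMod (2 * n) → ℤ × ℤ | IsLoop (2 * n) f ∧ x ≤ width (2 * n) f ∧ y ≤ height (2 * n) f ∧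
      r ≤ Pool.Agent.Y981.L2.area (2 * n) f}.ncard : ℝ) /
    ({f : ZMod (2 * n) → ℤ × ℤ | IsLoop (2 * n) f}.ncard : ℝ)

theorem width_iff {n : ℕ} (hn : 1 ≤ n) {f : ZMod (2 * n) → ℤ × ℤ} (hf : IsLoop (2 * n) f) (x : ℝ) :
    x ≤ width (2 * n) f ↔ Wd ⌈x⌉ f := by
  rcases le_or_gt x 0 with h | h
  · constructor
    · intro _
      refine ⟨0, 0, ?_⟩
      rw [sub_self, Int.ceil_le]
      exact_mod_cast h
    · intro _
      exact h.trans (Nat.cast_nonneg _)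
  · have h1 : 1 ≤ ⌈x⌉₊ := Nat.one_le_iff_ne_zero.2 (Nat.ceil_pos.2 h).ne'
    have h2 : ((⌈x⌉₊ : ℕ) : ℤ) = ⌈x⌉ := Int.natCast_ceil_eq_ceil h.le
    rw [← h2, ← Pool.Agent.Y981.L2.le_width hn hf h1, Nat.ceil_le]

theorem height_iff {n : ℕ} (hn : 1 ≤ n) {f : ZMod (2 * n) → ℤ × ℤ} (hf : IsLoop (2 * n) f) (x : ℝ) :
    x ≤ height (2 * n) f ↔ Ht ⌈x⌉ f :=
  width_iff hn (Pool.Agent.Y981.L2.swp_loop hf) x

theorem pr3_eq {n : ℕ} (hn : 1 ≤ n) (x y r : ℝ) :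
    pr3 n x y r = (an3 n ⌈x⌉ ⌈y⌉ ⌈r⌉₊ : ℝ) / ln n := by
  unfold pr3 an3 ln
  congr 3
  ext f
  simp only [Set.mem_ofPred_eq]
  constructor
  · rintro ⟨h1, h2, h3, h4⟩
    exact ⟨h1, (width_iff hn h1 x).1 h2, (height_iff hn h1 y).1 h3, Nat.ceil_le.2 h4⟩
  · rintro ⟨h1, h2, h3, h4⟩
    exact ⟨h1, (width_iff hn h1 x).2 h2, (height_iff hn h1 y).2 h3, Nat.ceil_le.1 h4⟩

theorem pr3_unif : ∃ K C : ℝ, 0 ≤ K ∧ 0 ≤ C ∧ ∀ n : ℕ, 2 ≤ n → ∀ M : ℕ, 1 ≤ M → 16 * M ^ 2 ≤ n →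
    ∀ x y r : ℝ, 0 ≤ r →
      (0 < pr3 n x y r → Feas (x / n - C / M) (y / n - C / M) (r / n ^ 2 - C / M)) ∧
      pr3 n x y r ≤ Real.exp (-(2 * n * J3 Rate (x / n - C / M) (y / n - C / M) (r / n ^ 2 - C / M) -
        K * M * Real.log n ^ 2)) ∧
      (Feas (x / n + C / M) (y / n + C / M) (r / n ^ 2 + C / M) →
        Real.exp (-(2 * n * J3 Rate (x / n + C / M) (y / n + C / M) (r / n ^ 2 + C / M) +
        K * M * Real.log n ^ 2)) ≤ pr3 n x y r) := by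
  obtain ⟨K1, hK1, hlow⟩ := lower_J3
  obtain ⟨K2, C, hK2, hC, hup⟩ := upper_J3
  obtain ⟨K3, hK3, hln⟩ := Pool.Agent.K6.H5.JW.ln_law
  refine ⟨K1 + K2 + K3, C + 4, by positivity, by positivity, ?_⟩
  intro n hn M hM hMn x y r hr
  have hn0 : (0 : ℝ) < n := by exact_mod_cast (by omega : 0 < n)
  have hM0 : (0 : ℝ) < M := by exact_mod_cast hM
  have hM1 : (1 : ℝ) ≤ M := by exact_mod_cast hM
  have hl : 0 ≤ Real.log (n : ℝ) ^ 2 := by positivity
  have hlM : K3 * Real.log (n : ℝ) ^ 2 ≤ K3 * M * Real.log (n : ℝ) ^ 2 := by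
    have : K3 * 1 * Real.log (n : ℝ) ^ 2 ≤ K3 * M * Real.log (n : ℝ) ^ 2 := by gcongr
    linarith
  obtain ⟨hln0, hln1⟩ := hln n hn
  rw [abs_le] at hln1
  have e0 : ((2 * n : ℕ) : ℝ) = 2 * n := by push_cast; ring
  rw [e0] at hln1
  rw [pr3_eq (by omega)]
  have z1 : 0 ≤ K1 * M * Real.log (n : ℝ) ^ 2 := by positivity
  have z2 : 0 ≤ K2 * M * Real.log (n : ℝ) ^ 2 := by positivity
  have hCM : C / (M : ℝ) ≤ (C + 4) / M := by gcongr; linarith
  have h4M : 4 / (M : ℝ) ≤ (C + 4) / M := by gcongr; linarith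
  have cx1 : x / n * n ≤ (⌈x⌉ : ℤ) := by
    rw [div_mul_cancel₀ _ hn0.ne']
    exact Int.le_ceil x
  have cx2 : ((⌈x⌉ : ℤ) : ℝ) ≤ x / n * n + 1 := by
    rw [div_mul_cancel₀ _ hn0.ne']
    exact (Int.ceil_lt_add_one x).le
  have cy1 : y / n * n ≤ (⌈y⌉ : ℤ) := by
    rw [div_mul_cancel₀ _ hn0.ne']
    exact Int.le_ceil y
  have cy2 : ((⌈y⌉ : ℤ) : ℝ) ≤ y / n * n + 1 := by
    rw [div_mul_cancel₀ _ hn0.ne']
    exact (Int.ceil_lt_add_one y).le
  have ca1 : r / n ^ 2 * n ^ 2 ≤ (⌈r⌉₊ : ℕ) := by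
    rw [div_mul_cancel₀ _ (by positivity)]
    exact Nat.le_ceil r
  have ca2 : ((⌈r⌉₊ : ℕ) : ℝ) ≤ r / n ^ 2 * n ^ 2 + 1 := by
    rw [div_mul_cancel₀ _ (by positivity)]
    exact (Nat.ceil_lt_add_one hr).le
  refine ⟨?_, ?_, ?_⟩
  · intro h0
    have h1 : 0 < an3 n ⌈x⌉ ⌈y⌉ ⌈r⌉₊ := by
      rcases Nat.eq_zero_or_pos (an3 n ⌈x⌉ ⌈y⌉ ⌈r⌉₊) with h2 | h2
      · rw [h2] at h0
        simp at h0
      · exact h2
    exact (hup n hn M hM hMn _ _ _ _ _ _ cx1 cy1 ca1 h1).1.mono (by linarith) (by linarith)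
      (by linarith)
  · rcases Nat.eq_zero_or_pos (an3 n ⌈x⌉ ⌈y⌉ ⌈r⌉₊) with h0 | h0
    · rw [h0]
      simp only [Nat.cast_zero, zero_div]
      exact (Real.exp_pos _).le
    · have hpos : (0 : ℝ) < an3 n ⌈x⌉ ⌈y⌉ ⌈r⌉₊ := by exact_mod_cast h0
      obtain ⟨g0, g1⟩ := hup n hn M hM hMn _ _ _ _ _ _ cx1 cy1 ca1 h0
      have hmono := J3_mono rateFn (show x / n - (C + 4) / M ≤ x / n - C / M by linarith)
        (show y / n - (C + 4) / M ≤ y / n - C / M by linarith)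
        (show r / (n : ℝ) ^ 2 - (C + 4) / M ≤ r / n ^ 2 - C / M by linarith) g0
      have := mul_le_mul_of_nonneg_left hmono (show (0 : ℝ) ≤ 2 * n by positivity)
      rw [← Real.exp_log (div_pos hpos hln0), Real.exp_le_exp, Real.log_div hpos.ne' hln0.ne']
      linarith [hln1.1]
  · intro hf
    have hf2 : Feas (x / n + 4 / M) (y / n + 4 / M) (r / (n : ℝ) ^ 2 + 4 / M) :=
      hf.mono (by linarith) (by linarith) (by linarith)
    obtain ⟨g1, g2⟩ := hlow n hn M hM hMn _ _ _ _ _ _ cx2 cy2 ca2 hf2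
    have hpos : (0 : ℝ) < an3 n ⌈x⌉ ⌈y⌉ ⌈r⌉₊ := by exact_mod_cast g1
    have hmono := J3_mono rateFn (show x / n + 4 / M ≤ x / n + (C + 4) / M by linarith)
      (show y / n + 4 / M ≤ y / n + (C + 4) / M by linarith)
      (show r / (n : ℝ) ^ 2 + 4 / M ≤ r / n ^ 2 + (C + 4) / M by linarith) hf
    have := mul_le_mul_of_nonneg_left hmono (show (0 : ℝ) ≤ 2 * n by positivity)
    rw [← Real.exp_log (div_pos hpos hln0), Real.exp_le_exp, Real.log_div hpos.ne' hln0.ne']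
    linarith [hln1.2]

theorem pr3_tendsto {x y a : ℝ} (ha : 0 ≤ a) (hs : SFeas x y a) :
    Tendsto (fun n : ℕ => -Real.log (pr3 n (x * n) (y * n) (a * (n : ℝ) ^ 2)) / (2 * n)) atTop
      (𝓝 (J3 Rate x y a)) := by
  obtain ⟨K, C, hK, hC, h⟩ := pr3_unif
  rw [Metric.tendsto_atTop']
  intro ε hε
  obtain ⟨δ, hδ, hδ1, hJ⟩ := J3_cont rateFn hs (ε := ε / 4) (by linarith)
  obtain ⟨M, hM⟩ := exists_nat_gt (C / δ + 1)
  have hM1 : 1 ≤ M := by
    have : (1 : ℝ) < M := by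
      have : 0 ≤ C / δ := by positivity
      linarith
    exact_mod_cast this.le
  have hM0 : (0 : ℝ) < M := by exact_mod_cast hM1
  have hCM0 : 0 ≤ C / (M : ℝ) := by positivity
  have hCM : C / M ≤ δ := by
    rw [div_le_iff₀ hM0]
    have h2 : C / δ < M := by linarith
    rw [div_lt_iff₀ hδ] at h2
    linarith
  have hlog : Tendsto (fun n : ℕ => (K * M / 2) * (Real.log n ^ 2 / (n : ℝ))) atTop (𝓝 0) := by
    simpa using log_sq_div.const_mul (K * M / 2)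
  obtain ⟨N0, hN0⟩ := eventually_atTop.1
    (hlog.eventually (gt_mem_nhds (show (0 : ℝ) < ε / 4 by linarith)))
  refine ⟨max N0 (16 * M ^ 2), ?_⟩
  intro n hn
  have hn1 : N0 ≤ n := (le_max_left _ _).trans hn.le
  have hn2 : 16 * M ^ 2 ≤ n := (le_max_right _ _).trans hn.le
  have hM2 : 1 ≤ M ^ 2 := Nat.one_le_pow _ _ hM1
  have hn3 : 2 ≤ n := by omega
  have hnr : (0 : ℝ) < n := by exact_mod_cast (by omega : 0 < n)
  obtain ⟨-, g1, g2⟩ := h n hn3 M hM1 hn2 (x * n) (y * n) (a * (n : ℝ) ^ 2) (by positivity)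
  have e1 : a * (n : ℝ) ^ 2 / n ^ 2 = a := by field_simp
  have e2 : x * (n : ℝ) / n = x := by field_simp
  have e3 : y * (n : ℝ) / n = y := by field_simp
  rw [e1, e2, e3] at g1 g2
  have hf2 : Feas (x + C / M) (y + C / M) (a + C / M) :=
    hδ1.mono (by linarith) (by linarith) (by linarith)
  have g3 := g2 hf2
  have hpos : 0 < pr3 n (x * n) (y * n) (a * (n : ℝ) ^ 2) := lt_of_lt_of_le (Real.exp_pos _) g3
  have g4 := Real.log_le_log hpos g1
  have g5 := Real.log_le_log (Real.exp_pos _) g3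
  rw [Real.log_exp] at g4 g5
  have herr := hN0 n hn1
  have herr2 : K * M * Real.log (n : ℝ) ^ 2 ≤ (ε / 4) * (2 * n) := by
    have e2 : (K * M / 2) * (Real.log (n : ℝ) ^ 2 / n) = K * M * Real.log (n : ℝ) ^ 2 / (2 * n) := by
      field_simp
    rw [e2, div_lt_iff₀ (by positivity)] at herr
    exact herr.le
  have j1 : J3 Rate (x - δ) (y - δ) (a - δ) ≤ J3 Rate (x - C / M) (y - C / M) (a - C / M) :=
    J3_mono rateFn (by linarith) (by linarith) (by linarith)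
      (hδ1.mono (by linarith) (by linarith) (by linarith))
  have j2 : J3 Rate (x + C / M) (y + C / M) (a + C / M) ≤ J3 Rate (x + δ) (y + δ) (a + δ) :=
    J3_mono rateFn (by linarith) (by linarith) (by linarith) hδ1
  have j3 : J3 Rate x y a ≤ J3 Rate (x + δ) (y + δ) (a + δ) :=
    J3_mono rateFn (by linarith) (by linarith) (by linarith) hδ1
  have j4 : J3 Rate (x - δ) (y - δ) (a - δ) ≤ J3 Rate x y a :=
    J3_mono rateFn (by linarith) (by linarith) (by linarith)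
      (hδ1.mono (by linarith) (by linarith) (by linarith))
  rw [Real.dist_eq, abs_lt]
  constructor
  · rw [lt_sub_iff_add_lt, lt_div_iff₀ (by positivity)]
    have : (-ε + J3 Rate x y a) * (2 * n) <
        (J3 Rate (x - C / M) (y - C / M) (a - C / M) - ε / 4) * (2 * n) := by
      apply mul_lt_mul_of_pos_right _ (by positivity)
      linarith
    linarith
  · rw [sub_lt_iff_lt_add, div_lt_iff₀ (by positivity)]
    have : (J3 Rate (x + C / M) (y + C / M) (a + C / M) + ε / 4) * (2 * n) <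
        (ε + J3 Rate x y a) * (2 * n) := by
      apply mul_lt_mul_of_pos_right _ (by positivity)
      linarith
    linarith

end Pool.Agent.K6.H5.WHA
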